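import Pool.Agent.U585.QC.Lim
import Pool.Agent.U585.GA.Rad

/-!
# From moments to distribution functions
-/

set_option autoImplicit false
set_option linter.unusedSectionVars false

open MeasureTheory Filter Topology ProbabilityTheory

namespace Pool.Agent.U585.QC

open Pool.Agent.U585.GA (tp exp_taylor pow_le_cosh gauss_int)

lemma gauss_cosh (a : ℝ) : Integrable (fun y : ℝ => Real.cosh (a * y)) (gaussianReal 0 1) := by
  have h1 : (fun y : ℝ => Real.cosh (a * y)) = fun y => (Real.exp (a * y) + Real.exp (-a * y)) / 2 := by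
    funext y
    rw [Real.cosh_eq]
    congr 2
    rw [neg_mul]
  rw [h1]
  exact ((integrable_exp_mul_gaussianReal a).add (integrable_exp_mul_gaussianReal (-a))).div_const 2

lemma gauss_mom (θ : ℝ) : ∃ C : ℝ, ∀ k : ℕ,
    |θ| ^ (2 * k) * (∫ y, y ^ (2 * k) ∂(gaussianReal 0 1)) / (2 * k).factorial ≤ C * (1 / 4) ^ k := by
  refine ⟨∫ y, Real.cosh (2 * |θ| * y) ∂(gaussianReal 0 1), fun k => ?_⟩
  have h1 : ∫ y, (2 * |θ| * y) ^ (2 * k) / (2 * k).factorial ∂(gaussianReal 0 1) ≤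
      ∫ y, Real.cosh (2 * |θ| * y) ∂(gaussianReal 0 1) := by
    refine integral_mono ?_ (gauss_cosh _) fun y => pow_le_cosh k _
    simp_rw [mul_pow]
    exact ((gauss_int k).const_mul _).div_const _
  rw [integral_div] at h1
  simp_rw [mul_pow (2 * |θ|)] at h1
  rw [integral_const_mul] at h1
  have h2 : |θ| ^ (2 * k) * (∫ y, y ^ (2 * k) ∂(gaussianReal 0 1)) / (2 * k).factorial =
      (2 * |θ|) ^ (2 * k) * (∫ y, y ^ (2 * k) ∂(gaussianReal 0 1)) / (2 * k).factorial * (1 / 4) ^ k := by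
    have h3 : (2 * |θ|) ^ (2 * k) * (1 / 4) ^ k = |θ| ^ (2 * k) := by
      rw [mul_pow, pow_mul 2 2 k, mul_right_comm, ← mul_pow]
      norm_num
    rw [← h3]
    ring
  rw [h2]
  exact mul_le_mul_of_nonneg_right h1 (by positivity)

/-- the truncated expansion of the characteristic function -/
lemma char_tp (ν : Measure ℝ) [IsProbabilityMeasure ν] (hint : ∀ j : ℕ, Integrable (fun y : ℝ => y ^ j) ν)
    (θ : ℝ) (k : ℕ) : ‖charFun ν θ - ∑ j ∈ Finset.range (2 * k), (Complex.I * θ) ^ j / (j.factorial : ℂ) *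
      ((∫ y, y ^ j ∂ν : ℝ) : ℂ)‖ ≤ |θ| ^ (2 * k) * (∫ y, y ^ (2 * k) ∂ν) / (2 * k).factorial := by
  have h1 : ∑ j ∈ Finset.range (2 * k), (Complex.I * θ) ^ j / (j.factorial : ℂ) *
      ((∫ y, y ^ j ∂ν : ℝ) : ℂ) = ∫ y, tp (2 * k) (θ * y) ∂ν := by
    unfold tp
    rw [integral_finsetSum]
    · refine Finset.sum_congr rfl fun j _ => ?_
      rw [← integral_complex_ofReal, ← integral_const_mul]
      congr 1
      funext y
      push_cast
      ring
    · intro j _
      have h2 : (fun y : ℝ => (Complex.I * ((θ * y : ℝ) : ℂ)) ^ j / (j.factorial : ℂ)) =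
          fun y : ℝ => (Complex.I * θ) ^ j / (j.factorial : ℂ) * ((y ^ j : ℝ) : ℂ) := by
        funext y; push_cast; ring
      rw [h2]
      exact (hint j).ofReal.const_mul _
  have h3 : Integrable (fun y : ℝ => Complex.exp (θ * y * Complex.I)) ν := by
    refine Integrable.of_bound (C := 1) (by fun_prop) (ae_of_all _ fun y => ?_)
    have : (θ * y * Complex.I : ℂ) = ((θ * y : ℝ) : ℂ) * Complex.I := by push_cast; ring
    rw [this, Complex.norm_exp_ofReal_mul_I]
  have h4 : Integrable (fun y : ℝ => tp (2 * k) (θ * y)) ν := by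
    unfold tp
    refine integrable_finset_sum _ fun j _ => ?_
    have h2 : (fun y : ℝ => (Complex.I * ((θ * y : ℝ) : ℂ)) ^ j / (j.factorial : ℂ)) =
        fun y : ℝ => (Complex.I * θ) ^ j / (j.factorial : ℂ) * ((y ^ j : ℝ) : ℂ) := by
      funext y; push_cast; ring
    rw [h2]
    exact (hint j).ofReal.const_mul _
  rw [h1, charFun_apply_real, ← integral_sub h3 h4]
  refine (norm_integral_le_integral_norm _).trans ?_
  have h5 : |θ| ^ (2 * k) * (∫ y, y ^ (2 * k) ∂ν) / (2 * k).factorial =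
      ∫ y, |θ| ^ (2 * k) * y ^ (2 * k) / (2 * k).factorial ∂ν := by
    rw [integral_div, integral_const_mul]
  rw [h5]
  refine integral_mono (h3.sub h4).norm (((hint (2 * k)).const_mul _).div_const _) fun y => ?_
  have h6 := exp_taylor (2 * k) (θ * y)
  have h7 : (θ * y * Complex.I : ℂ) = Complex.I * ((θ * y : ℝ) : ℂ) := by push_cast; ring
  have h8 : |θ * y| ^ (2 * k) = |θ| ^ (2 * k) * y ^ (2 * k) := by
    rw [abs_mul, mul_pow]
    congr 1
    rw [pow_mul, sq_abs, ← pow_mul]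
  beta_reduce
  rw [h7, ← h8]
  exact h6

/-- convergence of the moments to those of the normal law gives convergence of the distribution functions -/
theorem mom_cdf (ν : ℕ → ProbabilityMeasure ℝ) (hint : ∀ n j : ℕ, Integrable (fun y : ℝ => y ^ j) (ν n : Measure ℝ))
    (hm : ∀ r : ℕ, Tendsto (fun n => ∫ y, y ^ r ∂(ν n : Measure ℝ)) atTop (𝓝 (∫ y, y ^ r ∂(gaussianReal 0 1))))
    (t : ℝ) : Tendsto (fun n => ((ν n : Measure ℝ) (Set.Iic t)).toReal) atTop (𝓝 (cdf (gaussianReal 0 1) t)) := by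
  set μ₀ : ProbabilityMeasure ℝ := ⟨gaussianReal 0 1, inferInstance⟩ with hμ₀
  have hg : ∀ j : ℕ, Integrable (fun y : ℝ => y ^ j) (gaussianReal 0 1) := by
    intro j
    have h := (memLp_id_gaussianReal' (μ := 0) (v := 1) ((j : ℕ) : ENNReal)
      (ENNReal.natCast_ne_top _)).integrable_norm_pow'
    refine h.mono (by fun_prop) (ae_of_all _ fun y => ?_)
    simp [norm_pow]
  have hchar : ∀ θ : ℝ, Tendsto (fun n => charFun (ν n : Measure ℝ) θ) atTop (𝓝 (charFun (μ₀ : Measure ℝ) θ)) := by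
    intro θ
    change Tendsto (fun n => charFun (ν n : Measure ℝ) θ) atTop (𝓝 (charFun (gaussianReal 0 1) θ))
    rw [Metric.tendsto_atTop']
    intro η hη
    obtain ⟨C, hC⟩ := gauss_mom θ
    obtain ⟨k, hk⟩ : ∃ k : ℕ, (1 / 4 : ℝ) ^ k < η / (8 * (|C| + 1)) :=
      exists_pow_lt_of_lt_one (by positivity) (by norm_num)
    have hCk : |θ| ^ (2 * k) * (∫ y, y ^ (2 * k) ∂(gaussianReal 0 1)) / (2 * k).factorial ≤ η / 8 := by
      refine (hC k).trans ?_
      rw [lt_div_iff₀ (by positivity)] at hk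
      have h1 : C * (1 / 4) ^ k ≤ |C| * (1 / 4) ^ k := mul_le_mul_of_nonneg_right (le_abs_self C) (by positivity)
      have h2 : (0 : ℝ) ≤ (1 / 4) ^ k := by positivity
      nlinarith
    have hsum : Tendsto (fun n => ∑ j ∈ Finset.range (2 * k), (Complex.I * θ) ^ j / (j.factorial : ℂ) *
        ((∫ y, y ^ j ∂(ν n : Measure ℝ) : ℝ) : ℂ)) atTop (𝓝 (∑ j ∈ Finset.range (2 * k),
        (Complex.I * θ) ^ j / (j.factorial : ℂ) * ((∫ y, y ^ j ∂(gaussianReal 0 1) : ℝ) : ℂ))) := by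
      refine tendsto_finset_sum _ fun j _ => ?_
      exact ((Complex.continuous_ofReal.tendsto _).comp (hm j)).const_mul _
    have hlast : Tendsto (fun n => |θ| ^ (2 * k) * (∫ y, y ^ (2 * k) ∂(ν n : Measure ℝ)) / (2 * k).factorial) atTop
        (𝓝 (|θ| ^ (2 * k) * (∫ y, y ^ (2 * k) ∂(gaussianReal 0 1)) / (2 * k).factorial)) :=
      ((hm (2 * k)).const_mul _).div_const _
    have e1 := hlast.eventually_le_const (u := η / 4) (by linarith)
    rw [Metric.tendsto_nhds] at hsum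
    have e2 := hsum (η / 4) (by linarith)
    obtain ⟨n0, hn0⟩ := eventually_atTop.1 (e1.and e2)
    refine ⟨n0, fun n hn => ?_⟩
    obtain ⟨g1, g2⟩ := hn0 n (le_of_lt hn)
    have g3 := char_tp (ν n : Measure ℝ) (hint n) θ k
    have g4 := char_tp (gaussianReal 0 1) hg θ k
    rw [dist_eq_norm] at g2 ⊢
    set S1 := ∑ j ∈ Finset.range (2 * k), (Complex.I * θ) ^ j / (j.factorial : ℂ) *
        ((∫ y, y ^ j ∂(ν n : Measure ℝ) : ℝ) : ℂ)
    set S2 := ∑ j ∈ Finset.range (2 * k),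
        (Complex.I * θ) ^ j / (j.factorial : ℂ) * ((∫ y, y ^ j ∂(gaussianReal 0 1) : ℝ) : ℂ)
    have e : charFun (ν n : Measure ℝ) θ - charFun (gaussianReal 0 1) θ =
        (charFun (ν n : Measure ℝ) θ - S1) + (S1 - S2) + -(charFun (gaussianReal 0 1) θ - S2) := by ring
    rw [e]
    refine lt_of_le_of_lt (norm_add₃_le) ?_
    rw [norm_neg]
    linarith
  have hlim := ProbabilityMeasure.tendsto_of_tendsto_charFun hchar
  have hfr : (μ₀ : Measure ℝ) (frontier (Set.Iic t)) = 0 := by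
    rw [frontier_Iic]
    have : NullSingletonClass (gaussianReal 0 1) := nullSingletonClass_gaussianReal one_ne_zero
    change gaussianReal 0 1 {t} = 0
    exact measure_singleton t
  have h2 := ProbabilityMeasure.tendsto_measure_of_null_frontier_of_tendsto' hlim hfr
  have h3 := (ENNReal.tendsto_toReal (measure_ne_top (μ₀ : Measure ℝ) (Set.Iic t))).comp h2
  rw [cdf_eq_real]
  exact h3

/-- finitely many moments control the distribution function -/
theorem close_cdf (t η : ℝ) (hη : 0 < η) : ∃ (R : ℕ) (η' : ℝ), 0 < η' ∧ ∀ ν : ProbabilityMeasure ℝ,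
    (∀ j : ℕ, Integrable (fun y : ℝ => y ^ j) (ν : Measure ℝ)) →
    (∀ r ≤ R, |∫ y, y ^ r ∂(ν : Measure ℝ) - ∫ y, y ^ r ∂(gaussianReal 0 1)| ≤ η') →
    |((ν : Measure ℝ) (Set.Iic t)).toReal - cdf (gaussianReal 0 1) t| ≤ η := by
  by_contra hcon
  push Not at hcon
  choose ν h1 h2 h3 using fun n : ℕ => hcon n (1 / ((n : ℝ) + 1)) (by positivity)
  have h4 := mom_cdf ν h1 (fun r => by
    rw [tendsto_iff_norm_sub_tendsto_zero]
    refine squeeze_zero' (Eventually.of_forall fun n => norm_nonneg _) ?_ tendsto_one_div_add_atTop_nhds_zero_nat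
    filter_upwards [eventually_ge_atTop r] with n hn
    rw [Real.norm_eq_abs]
    exact h2 n r hn) t
  rw [Metric.tendsto_nhds] at h4
  obtain ⟨n, hn⟩ := (h4 η hη).exists
  rw [Real.dist_eq] at hn
  exact absurd hn (not_lt.2 (h3 n).le)

end Pool.Agent.U585.QC
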