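import Pool.Agent.U585.QC.Mom
import Pool.Agent.U585.GA.Itp

/-!
# Few primes with a large deviation
-/

set_option autoImplicit false
set_option linter.unusedSectionVars false

open Finset MeasureTheory ProbabilityTheory

namespace Pool.Agent.U585.QC

open Pool.Agent.U585.GC (Signs PN mem_PN poly poly_dep hyper poly_pow_int Ck Ck_ge)
open Pool.Agent.U585.GA (De ac De_eq dl dl_pos dl_le l2r TN NE uo om om_le om_nonneg mem_SN Cond card_TN)

/-- the signs of a prime -/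
noncomputable def sgq (c : ℕ → ℝ) (q p : ℕ) : ℝ := if jacobiSym p q = -1 then -c p else c p

lemma sgq_val {c : ℕ → ℝ} (hc : ∀ p, c p = 1 ∨ c p = -1) (q p : ℕ) : sgq c q p = 1 ∨ sgq c q p = -1 := by
  unfold sgq
  split_ifs
  · rcases hc p with h | h <;> rw [h] <;> norm_num
  · exact hc p

lemma sgq_eq (c : ℕ → ℝ) {q p : ℕ} (hq : q.Prime) (hp : p.Prime) (hpq : p < q) : sgq c q p = sj c q p := by
  have h1 : (p : ℤ).gcd q = 1 := by
    rw [Int.gcd_natCast_natCast]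
    exact (Nat.coprime_primes hp hq).2 hpq.ne
  unfold sgq sj
  rcases jacobiSym.eq_one_or_neg_one h1 with h | h <;> rw [h]
  · rw [if_neg (by norm_num)]; simp
  · rw [if_pos rfl]; simp

lemma De_sq (c : ℕ → ℝ) {X H : ℝ} {r N q : ℕ} (hq : q.Prime) (hN : N < q) :
    De X H r N (sgq c q) = poly (PN N) (ac X H r N) (sj c q) := by
  rw [De_eq]
  refine poly_dep (PN N) _ _ _ fun p hp => ?_
  have hp' := mem_PN.1 (mem_coe.1 hp)
  exact sgq_eq c hq hp'.1 (by omega)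

lemma ac_nonneg {X H : ℝ} (hX : 0 ≤ X) (r N : ℕ) (U : Finset ℕ) : 0 ≤ ac X H r N U := by
  unfold ac
  exact sum_nonneg fun n _ => div_nonneg (om_nonneg hX H n) hX

lemma De_id {X H : ℝ} (hX : 0 < X) (hH : 0 ≤ H) (hHX : H ≤ X) {r : ℕ} (hr : 1 ≤ r) (N : ℕ) :
    De X H r N (fun p => (p : ℝ)) ≤ ((N : ℝ) ^ r) ^ 2 := by
  classical
  unfold De
  have h1 : ∀ n ∈ (TN r N).filter (fun n => NE n), om X H n / X * ∏ p ∈ uo N n, (p : ℝ) ≤ (N : ℝ) ^ r := by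
    intro n hn
    rw [mem_filter] at hn
    have hn1 : ∀ i, n i ∈ Pool.Agent.U585.GA.SN N := fun i => Fintype.mem_piFinset.1 hn.1 i
    have h2 : om X H n / X ≤ 1 := by
      rw [div_le_one hX]
      exact (om_le hr hX.le hH n).trans hHX
    have h3 : ∏ p ∈ uo N n, p ∣ ∏ i, n i := by
      refine Finset.prod_primes_dvd _ ?_ ?_
      · intro p hp
        unfold uo at hp
        exact (mem_PN.1 (mem_filter.1 hp).1).1.prime
      · intro p hp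
        unfold uo at hp
        obtain ⟨hp1, hp2⟩ := mem_filter.1 hp
        have h4 : (univ.filter (fun i => p ∣ n i)).Nonempty := by
          rw [← card_pos]
          exact hp2.pos
        obtain ⟨i, hi⟩ := h4
        exact (mem_filter.1 hi).2.trans (dvd_prod_of_mem n (mem_univ i))
    have h5 : ∏ i, n i ≤ N ^ r := by
      calc ∏ i, n i ≤ ∏ _i : Fin r, N := prod_le_prod' fun i _ => (mem_SN.1 (hn1 i)).2.1
        _ = N ^ r := by simp
    have h6 : 0 < ∏ i, n i := prod_pos fun i _ => (mem_SN.1 (hn1 i)).1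
    have h7 : ∏ p ∈ uo N n, (p : ℝ) ≤ (N : ℝ) ^ r := by
      have h8 : ∏ p ∈ uo N n, p ≤ N ^ r := (Nat.le_of_dvd h6 h3).trans h5
      have h9 : ((∏ p ∈ uo N n, p : ℕ) : ℝ) ≤ ((N ^ r : ℕ) : ℝ) := by exact_mod_cast h8
      push_cast at h9
      exact h9
    calc om X H n / X * ∏ p ∈ uo N n, (p : ℝ) ≤ 1 * (N : ℝ) ^ r :=
          mul_le_mul h2 h7 (prod_nonneg fun p _ => Nat.cast_nonneg _) zero_le_one
      _ = _ := one_mul _
  refine (sum_le_sum h1).trans ?_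
  rw [sum_const, nsmul_eq_mul, pow_two]
  have h2 : (((TN r N).filter (fun n => NE n)).card : ℝ) ≤ (N : ℝ) ^ r := by
    exact_mod_cast (card_filter_le _ _).trans (card_TN r N)
  exact mul_le_mul_of_nonneg_right h2 (by positivity)

lemma De_id_nonneg {X H : ℝ} (hX : 0 ≤ X) (r N : ℕ) : 0 ≤ De X H r N (fun p => (p : ℝ)) := by
  classical
  unfold De
  exact sum_nonneg fun n _ => mul_nonneg (div_nonneg (om_nonneg hX H n) hX)
    (prod_nonneg fun p _ => Nat.cast_nonneg _)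

variable {Ω : Type} [mΩ : MeasurableSpace Ω] {P : Measure Ω} [IsProbabilityMeasure P] {f : ℕ → Ω → ℝ}

open Classical in
/-- the primes with a large deviation -/
theorem dev_count (h : Signs P f) {c : ℕ → ℝ} (hc : ∀ p, c p = 1 ∨ c p = -1) (r : ℕ) (hr : 1 ≤ r) (ε : ℝ)
    (hε : 0 < ε) (hε2 : ε ≤ 1 / 2) (m : ℕ) : ∃ (K X₀ : ℝ) (A : ℕ), 0 < K ∧ 1 ≤ X₀ ∧
      ∀ (X H : ℝ) (N Q : ℕ), X₀ ≤ X → X ^ ε ≤ H → H ≤ X ^ (1 - ε) → (N : ℝ) ≤ 4 * X →
      (((range Q).filter (fun q => (q.Prime ∧ q ≠ 2 ∧ N < q) ∧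
        √(H ^ r) * X ^ (-(dl r ε / 4)) < |De X H r N (sgq c q)|)).card : ℝ) ≤
        K * (Q / X ^ m + X ^ A) := by
  have hd := dl_pos hr hε
  have hdl := dl_le (r := r) (ε := ε)
  set δ := dl r ε with hδ
  obtain ⟨k, hk⟩ := exists_nat_gt (m / (δ / 2))
  set k' := k + 1 with hk'
  have hk1 : 1 ≤ k' := by omega
  have hkm : (m : ℝ) ≤ δ / 2 * k' := by
    rw [div_lt_iff₀ (by linarith)] at hk
    rw [hk']
    push_cast
    nlinarith
  obtain ⟨K, X₀, hK, hX₀, hb⟩ := l2r r hr (Ck k') ε (Ck_ge k') hε hε2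
  refine ⟨K ^ k' + 4 * 4 ^ (4 * r * k'), X₀, 4 * r * k' + k', by positivity, hX₀,
    fun X H N Q hX hHl hHu hN => ?_⟩
  have hX1 : 1 ≤ X := hX₀.trans hX
  have hX0 : 0 < X := by linarith
  have hH0 : 0 < H := lt_of_lt_of_le (Real.rpow_pos_of_pos hX0 ε) hHl
  have hH1 : 1 ≤ H := (Real.one_le_rpow hX1 hε.le).trans hHl
  have hHX : H ≤ X := hHu.trans (by
    calc X ^ (1 - ε) ≤ X ^ (1 : ℝ) := Real.rpow_le_rpow_of_exponent_le hX1 (by linarith)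
      _ = X := Real.rpow_one X)
  have hB0 : 0 < H ^ r := by positivity
  have h1 : ∫ ω, poly (PN N) (ac X H r N) (fun p => f p ω) ^ (2 * k') ∂P ≤
      (K * (H ^ r * X ^ (-δ))) ^ k' := by
    refine (hyper h k' hk1 (PN N) (ac X H r N)).trans ?_
    refine pow_le_pow_left₀ ?_ (hb X H N hX hHl hHu hN) k'
    have := Ck_ge k'
    exact Finset.sum_nonneg fun U _ => by positivity
  have h2 := transfer h hc N (a := ac X H r N) (ac_nonneg hX0.le r N) (2 * k') Q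
  rw [← De_eq] at h2
  have h3 : De X H r N (fun p => (p : ℝ)) ^ (2 * k') ≤ (4 * X) ^ (4 * r * k') := by
    calc De X H r N (fun p => (p : ℝ)) ^ (2 * k') ≤ (((N : ℝ) ^ r) ^ 2) ^ (2 * k') :=
          pow_le_pow_left₀ (De_id_nonneg hX0.le r N) (De_id hX0 hH0.le hHX hr N) _
      _ = (N : ℝ) ^ (4 * r * k') := by rw [← pow_mul, ← pow_mul]; congr 1; ring
      _ ≤ _ := pow_le_pow_left₀ (Nat.cast_nonneg _) hN _
  set lam := (√(H ^ r) * X ^ (-(δ / 4))) ^ (2 * k') with hlam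
  have hlam0 : 0 < lam := by positivity
  have hlam1 : lam = (H ^ r * X ^ (-(δ / 2))) ^ k' := by
    rw [hlam, pow_mul]
    congr 1
    rw [mul_pow, Real.sq_sqrt hB0.le, ← Real.rpow_natCast (X ^ (-(δ / 4))) 2,
      ← Real.rpow_mul hX0.le]
    congr 2
    push_cast
    ring
  set A := (range Q).filter (fun q => (q.Prime ∧ q ≠ 2 ∧ N < q) ∧
        √(H ^ r) * X ^ (-(δ / 4)) < |De X H r N (sgq c q)|) with hA
  have h4 : (A.card : ℝ) * lam ≤
      ∑ d ∈ (range Q).filter (fun d => Odd d), poly (PN N) (ac X H r N) (sj c d) ^ (2 * k') := by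
    have h5 : ∑ _q ∈ A, lam ≤ ∑ q ∈ A, poly (PN N) (ac X H r N) (sj c q) ^ (2 * k') := by
      refine sum_le_sum fun q hq => ?_
      obtain ⟨_, ⟨hq1, hq2, hq3⟩, hq4⟩ := mem_filter.1 hq
      rw [← De_sq c hq1 hq3]
      have : lam ≤ |De X H r N (sgq c q)| ^ (2 * k') := pow_le_pow_left₀ (by positivity) hq4.le _
      rwa [pow_mul |De X H r N (sgq c q)|, sq_abs, ← pow_mul] at this
    rw [sum_const, nsmul_eq_mul] at h5
    refine h5.trans (sum_le_sum_of_subset_of_nonneg ?_ ?_)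
    · intro q hq
      obtain ⟨hq0, ⟨hq1, hq2, hq3⟩, hq4⟩ := mem_filter.1 hq
      exact mem_filter.2 ⟨hq0, hq1.odd_of_ne_two hq2⟩
    · intro q _ _
      rw [pow_mul]; positivity
  have hQ0 : (0 : ℝ) ≤ Q := Nat.cast_nonneg _
  have h6 : (A.card : ℝ) * lam ≤ Q * (K * (H ^ r * X ^ (-δ))) ^ k' + 4 * (4 * X) ^ (4 * r * k') := by
    have := mul_le_mul_of_nonneg_left h1 hQ0
    linarith
  have h7 : (A.card : ℝ) ≤ (Q * (K * (H ^ r * X ^ (-δ))) ^ k' + 4 * (4 * X) ^ (4 * r * k')) / lam := by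
    rwa [le_div_iff₀ hlam0]
  refine h7.trans ?_
  rw [add_div]
  have h8 : Q * (K * (H ^ r * X ^ (-δ))) ^ k' / lam ≤ K ^ k' * (Q / X ^ m) := by
    rw [hlam1, mul_div_assoc, ← div_pow]
    have h5 : K * (H ^ r * X ^ (-δ)) / (H ^ r * X ^ (-(δ / 2))) = K / X ^ (δ / 2) := by
      have e1 : X ^ (-δ) = X ^ (-(δ / 2)) * X ^ (-(δ / 2)) := by
        rw [← Real.rpow_add hX0]; congr 1; ring
      have e2 : X ^ (-(δ / 2)) ≠ 0 := (Real.rpow_pos_of_pos hX0 _).ne'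
      rw [e1]
      rw [show K / X ^ (δ / 2) = K * X ^ (-(δ / 2)) by rw [Real.rpow_neg hX0.le]; rfl]
      field_simp
    rw [h5, div_pow]
    have h9 : K ^ k' / (X ^ (δ / 2)) ^ k' ≤ K ^ k' / X ^ m := by
      refine div_le_div_of_nonneg_left (by positivity) (by positivity) ?_
      rw [← Real.rpow_natCast (X ^ (δ / 2)) k', ← Real.rpow_mul hX0.le, ← Real.rpow_natCast X m]
      exact Real.rpow_le_rpow_of_exponent_le hX1 hkm
    calc (Q : ℝ) * (K ^ k' / (X ^ (δ / 2)) ^ k') ≤ Q * (K ^ k' / X ^ m) := mul_le_mul_of_nonneg_left h9 hQ0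
      _ = _ := by ring
  have h9 : 4 * (4 * X) ^ (4 * r * k') / lam ≤ 4 * 4 ^ (4 * r * k') * X ^ (4 * r * k' + k') := by
    have h10 : (X ^ k')⁻¹ ≤ lam := by
      rw [hlam1, ← inv_pow]
      refine pow_le_pow_left₀ (by positivity) ?_ _
      have h11 : X⁻¹ ≤ X ^ (-(δ / 2)) := by
        rw [← Real.rpow_neg_one]
        exact Real.rpow_le_rpow_of_exponent_le hX1 (by linarith)
      have h12 : (1 : ℝ) ≤ H ^ r := one_le_pow₀ hH1
      calc X⁻¹ ≤ X ^ (-(δ / 2)) := h11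
        _ ≤ H ^ r * X ^ (-(δ / 2)) := le_mul_of_one_le_left (by positivity) h12
    rw [div_le_iff₀ hlam0]
    calc 4 * (4 * X) ^ (4 * r * k') = 4 * 4 ^ (4 * r * k') * X ^ (4 * r * k' + k') * (X ^ k')⁻¹ := by
          rw [mul_pow, pow_add]
          field_simp
      _ ≤ _ := mul_le_mul_of_nonneg_left h10 (by positivity)
  have h10 : (0 : ℝ) ≤ Q / X ^ m := by positivity
  have h11 : (0 : ℝ) ≤ X ^ (4 * r * k' + k') := by positivity
  have h12 : (0 : ℝ) ≤ K ^ k' := by positivity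
  have h13 : (0 : ℝ) ≤ 4 * 4 ^ (4 * r * k') := by positivity
  nlinarith [mul_nonneg h12 h11, mul_nonneg h13 h10]

/-- the bad primes of a level -/
def badq (c : ℕ → ℝ) (r : ℕ) (ε : ℝ) (n q : ℕ) : Prop :=
  ∃ z ∈ Finset.range (n ^ (r + 5) + 1) ×ˢ Finset.range (n ^ (r + 5) + 1), Cond r ε n z.1 z.2 ∧
    √(((z.2 : ℝ) / (n : ℝ) ^ (r + 4)) ^ r) * ((z.1 : ℝ) / (n : ℝ) ^ (r + 4)) ^ (-(dl r ε / 4)) <
    |De ((z.1 : ℝ) / (n : ℝ) ^ (r + 4)) ((z.2 : ℝ) / (n : ℝ) ^ (r + 4)) r (3 * n) (sgq c q)|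

open Classical in
theorem bad_count (h : Signs P f) {c : ℕ → ℝ} (hc : ∀ p, c p = 1 ∨ c p = -1) (r : ℕ) (hr : 1 ≤ r) (ε : ℝ)
    (hε : 0 < ε) (hε2 : ε ≤ 1 / 2) (B : ℕ) : ∃ (K : ℝ) (n₀ A : ℕ), 0 < K ∧ ∀ n : ℕ, n₀ ≤ n → ∀ Q : ℕ,
      (((range Q).filter (fun q => (q.Prime ∧ q ≠ 2 ∧ 3 * n < q) ∧ badq c r ε n q)).card : ℝ) ≤
        K * (Q / (n : ℝ) ^ B + (n : ℝ) ^ A) := by
  obtain ⟨K, X₀, A, hK, hX₀, hd⟩ := dev_count h hc r hr ε hε hε2 (2 * r + 10 + B)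
  refine ⟨4 * K * 2 ^ (2 * r + 10 + B), ⌈X₀⌉₊ + 4, A + (2 * r + 10), by positivity, fun n hn Q => ?_⟩
  have hn0 : (4 : ℝ) ≤ n := by exact_mod_cast (by omega : 4 ≤ n)
  have hnX : X₀ ≤ (n : ℝ) - 1 := by
    have h1 := Nat.le_ceil X₀
    have h2 : ((⌈X₀⌉₊ + 4 : ℕ) : ℝ) ≤ n := by exact_mod_cast hn
    push_cast at h2
    linarith
  have hM0 : (0 : ℝ) < (n : ℝ) ^ (r + 4) := by positivity
  set G := Finset.range (n ^ (r + 5) + 1) ×ˢ Finset.range (n ^ (r + 5) + 1) with hG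
  set E : ℕ × ℕ → Finset ℕ := fun z => (range Q).filter (fun q => (q.Prime ∧ q ≠ 2 ∧ 3 * n < q) ∧
    Cond r ε n z.1 z.2 ∧
    √(((z.2 : ℝ) / (n : ℝ) ^ (r + 4)) ^ r) * ((z.1 : ℝ) / (n : ℝ) ^ (r + 4)) ^ (-(dl r ε / 4)) <
    |De ((z.1 : ℝ) / (n : ℝ) ^ (r + 4)) ((z.2 : ℝ) / (n : ℝ) ^ (r + 4)) r (3 * n) (sgq c q)|) with hE
  have h0 : (range Q).filter (fun q => (q.Prime ∧ q ≠ 2 ∧ 3 * n < q) ∧ badq c r ε n q) ⊆ G.biUnion E := by
    intro q hq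
    obtain ⟨hq1, hq2, z, hz, hz2⟩ := mem_filter.1 hq
    exact mem_biUnion.2 ⟨z, hz, mem_filter.2 ⟨hq1, hq2, hz2⟩⟩
  have hQ0 : (0 : ℝ) ≤ Q := Nat.cast_nonneg _
  have h1 : ∀ z ∈ G, ((E z).card : ℝ) ≤
      K * 2 ^ (2 * r + 10 + B) * (Q / (n : ℝ) ^ (2 * r + 10 + B) + (n : ℝ) ^ A) := by
    intro z hz
    by_cases hc' : Cond r ε n z.1 z.2
    · obtain ⟨c1, c2, c3⟩ := hc'
      have hX : X₀ ≤ (z.1 : ℝ) / (n : ℝ) ^ (r + 4) := by linarith
      have hN : ((3 * n : ℕ) : ℝ) ≤ 4 * ((z.1 : ℝ) / (n : ℝ) ^ (r + 4)) := by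
        push_cast; linarith
      have h2 := hd _ _ (3 * n) Q hX c2 c3 hN
      have h3 : ((E z).card : ℝ) ≤ K * (Q / ((z.1 : ℝ) / (n : ℝ) ^ (r + 4)) ^ (2 * r + 10 + B) +
          ((z.1 : ℝ) / (n : ℝ) ^ (r + 4)) ^ A) := by
        refine le_trans ?_ h2
        refine Nat.cast_le.2 (card_le_card fun q hq => ?_)
        obtain ⟨hq1, hq2, hq3, hq4⟩ := mem_filter.1 hq
        exact mem_filter.2 ⟨hq1, hq2, hq4⟩
      refine h3.trans ?_
      have h4 : (n : ℝ) / 2 ≤ (z.1 : ℝ) / (n : ℝ) ^ (r + 4) := by linarith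
      have h5 : ((n : ℝ) / 2) ^ (2 * r + 10 + B) ≤ ((z.1 : ℝ) / (n : ℝ) ^ (r + 4)) ^ (2 * r + 10 + B) :=
        pow_le_pow_left₀ (by positivity) h4 _
      have h6 : (z.1 : ℝ) / (n : ℝ) ^ (r + 4) ≤ n := by
        rw [div_le_iff₀ hM0]
        have h7 : z.1 ≤ n ^ (r + 5) := by
          have := mem_range.1 (mem_product.1 hz).1
          omega
        calc (z.1 : ℝ) ≤ ((n ^ (r + 5) : ℕ) : ℝ) := by exact_mod_cast h7
          _ = n * (n : ℝ) ^ (r + 4) := by push_cast; ring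
      have h8 : ((z.1 : ℝ) / (n : ℝ) ^ (r + 4)) ^ A ≤ (n : ℝ) ^ A := pow_le_pow_left₀ (by positivity) h6 _
      have h9 : (Q : ℝ) / ((z.1 : ℝ) / (n : ℝ) ^ (r + 4)) ^ (2 * r + 10 + B) ≤
          2 ^ (2 * r + 10 + B) * (Q / (n : ℝ) ^ (2 * r + 10 + B)) := by
        calc (Q : ℝ) / ((z.1 : ℝ) / (n : ℝ) ^ (r + 4)) ^ (2 * r + 10 + B) ≤
              Q / ((n : ℝ) / 2) ^ (2 * r + 10 + B) :=
              div_le_div_of_nonneg_left hQ0 (by positivity) h5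
          _ = _ := by rw [div_pow]; field_simp
      have h10 : (n : ℝ) ^ A ≤ 2 ^ (2 * r + 10 + B) * (n : ℝ) ^ A :=
        le_mul_of_one_le_left (by positivity) (one_le_pow₀ (by norm_num))
      calc K * (Q / ((z.1 : ℝ) / (n : ℝ) ^ (r + 4)) ^ (2 * r + 10 + B) +
            ((z.1 : ℝ) / (n : ℝ) ^ (r + 4)) ^ A)
          ≤ K * (2 ^ (2 * r + 10 + B) * (Q / (n : ℝ) ^ (2 * r + 10 + B)) +
            2 ^ (2 * r + 10 + B) * (n : ℝ) ^ A) :=
            mul_le_mul_of_nonneg_left (add_le_add h9 (h8.trans h10)) hK.le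
        _ = _ := by ring
    · have h2 : E z = ∅ := by
        rw [hE]
        refine filter_false_of_mem fun q _ hq => hc' hq.2.1
      rw [h2]
      simp only [card_empty, Nat.cast_zero]
      positivity
  have h2 : (((range Q).filter (fun q => (q.Prime ∧ q ≠ 2 ∧ 3 * n < q) ∧ badq c r ε n q)).card : ℝ) ≤
      ∑ z ∈ G, ((E z).card : ℝ) := by
    exact_mod_cast (card_le_card h0).trans card_biUnion_le
  refine (h2.trans (Finset.sum_le_sum h1)).trans ?_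
  rw [Finset.sum_const, hG, Finset.card_product, Finset.card_range, nsmul_eq_mul]
  push_cast
  have h3 : ((n : ℝ) ^ (r + 5) + 1) ≤ 2 * (n : ℝ) ^ (r + 5) := by
    have : (1 : ℝ) ≤ (n : ℝ) ^ (r + 5) := one_le_pow₀ (by linarith)
    linarith
  have h4 : ((n : ℝ) ^ (r + 5) + 1) * ((n : ℝ) ^ (r + 5) + 1) ≤
      (2 * (n : ℝ) ^ (r + 5)) * (2 * (n : ℝ) ^ (r + 5)) :=
    mul_le_mul h3 h3 (by positivity) (by positivity)
  have e2 : (2 * (n : ℝ) ^ (r + 5)) * (2 * (n : ℝ) ^ (r + 5)) = 4 * (n : ℝ) ^ (2 * r + 10) := by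
    rw [show 2 * r + 10 = (r + 5) + (r + 5) by ring, pow_add]; ring
  rw [e2] at h4
  have hn5 : (n : ℝ) ^ (2 * r + 10) ≠ 0 := by positivity
  have hnB : (n : ℝ) ^ B ≠ 0 := by positivity
  calc ((n : ℝ) ^ (r + 5) + 1) * ((n : ℝ) ^ (r + 5) + 1) *
        (K * 2 ^ (2 * r + 10 + B) * (Q / (n : ℝ) ^ (2 * r + 10 + B) + (n : ℝ) ^ A))
      ≤ 4 * (n : ℝ) ^ (2 * r + 10) *
        (K * 2 ^ (2 * r + 10 + B) * (Q / (n : ℝ) ^ (2 * r + 10 + B) + (n : ℝ) ^ A)) :=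
        mul_le_mul_of_nonneg_right h4 (by positivity)
    _ = _ := by
        rw [pow_add (n : ℝ) (2 * r + 10) B, pow_add (n : ℝ) A (2 * r + 10)]
        generalize (2 : ℝ) ^ (2 * r + 10 + B) = D
        generalize (n : ℝ) ^ (2 * r + 10) = F at *
        generalize (n : ℝ) ^ B = J at *
        generalize (n : ℝ) ^ A = L at *
        field_simp

end Pool.Agent.U585.QC
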