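import Pool.Agent.U585.QC.Dev
import Pool.Agent.U585.GA.Mom

/-!
# All windows, for the primes outside of the bad sets
-/

set_option autoImplicit false
set_option linter.unusedSectionVars false

open MeasureTheory Filter Topology ProbabilityTheory

namespace Pool.Agent.U585.QC

open Pool.Agent.U585.GC (Signs PN mem_PN poly)
open Pool.Agent.U585.GA (De De_lip dl dl_pos dl_le Cond)

set_option maxHeartbeats 4000000 in
/-- the moments outside of the bad events -/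
theorem De_small {c : ℕ → ℝ} (hc : ∀ p, c p = 1 ∨ c p = -1) {r : ℕ} (hr : 1 ≤ r) {ε : ℝ} (hε : 0 < ε)
    (hε2 : ε ≤ 1 / 2) :
    ∃ X₀ : ℝ, 4 ≤ X₀ ∧ ∀ (X H : ℝ) (q : ℕ), X₀ ≤ X → X ^ ε ≤ H → H ≤ X ^ (1 - ε) →
      ¬ badq c r (ε / 2) ⌈X⌉₊ q →
      |De X H r (3 * ⌈X⌉₊) (sgq c q)| ≤ √(H ^ r) * X ^ (-(dl r (ε / 2) / 8)) := by
  have hε' : 0 < ε / 2 := by linarith
  have hd := dl_pos hr hε'
  have hd2 := dl_le (r := r) (ε := ε / 2)
  set δ := dl r (ε / 2) with hδ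
  obtain ⟨X₁, hX₁⟩ : ∃ X₁ : ℝ, ∀ X : ℝ, X₁ ≤ X → 2 ≤ X ^ (ε / 2) :=
    eventually_atTop.1 ((tendsto_rpow_atTop hε').eventually_ge_atTop 2)
  obtain ⟨X₂, hX₂⟩ : ∃ X₂ : ℝ, ∀ X : ℝ, X₂ ≤ X → 2 + 3 ^ r * (4 + r) ≤ X ^ (δ / 8) :=
    eventually_atTop.1 ((tendsto_rpow_atTop (by linarith : 0 < δ / 8)).eventually_ge_atTop _)
  refine ⟨max (max (2 * X₁) X₁) (max X₂ 4), (le_max_right _ _).trans (le_max_right _ _),
    fun X H q hX hHl hHu hbad => ?_⟩
  have hXa : 2 * X₁ ≤ X := ((le_max_left _ _).trans (le_max_left _ _)).trans hX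
  have hXa' : X₁ ≤ X := ((le_max_right _ _).trans (le_max_left _ _)).trans hX
  have hXb : X₂ ≤ X := ((le_max_left _ _).trans (le_max_right _ _)).trans hX
  have hX4 : 4 ≤ X :=
    ((le_max_right _ _).trans (le_max_right _ _)).trans hX
  have hX0 : 0 < X := by linarith
  have hX1 : 1 ≤ X := by linarith
  have hH1 : 1 ≤ H := (Real.one_le_rpow hX1 hε.le).trans hHl
  have hHX : H ≤ X := hHu.trans (by
    calc X ^ (1 - ε) ≤ X ^ (1 : ℝ) := Real.rpow_le_rpow_of_exponent_le hX1 (by linarith)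
      _ = X := Real.rpow_one X)
  set n := ⌈X⌉₊ with hn
  have hn1 : X ≤ n := Nat.le_ceil X
  have hn2 : (n : ℝ) < X + 1 := Nat.ceil_lt_add_one hX0.le
  have hn4 : (4 : ℝ) ≤ n := hX4.trans hn1
  have hnat : 1 ≤ n := by
    have : (1 : ℝ) ≤ n := by linarith
    exact_mod_cast this
  have hnp : (0 : ℝ) < n := by linarith
  set M : ℝ := (n : ℝ) ^ (r + 4) with hM
  have hM0 : 0 < M := by positivity
  have hM1 : 1 ≤ M := one_le_pow₀ (by linarith)
  set a := ⌊X * M⌋₊ with ha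
  set b := ⌊H * M⌋₊ with hb
  have ha1 : (a : ℝ) ≤ X * M := Nat.floor_le (by positivity)
  have ha2 : X * M < a + 1 := Nat.lt_floor_add_one _
  have hb1 : (b : ℝ) ≤ H * M := Nat.floor_le (by positivity)
  have hb2 : H * M < b + 1 := Nat.lt_floor_add_one _
  set X' : ℝ := (a : ℝ) / M with hX'
  set H' : ℝ := (b : ℝ) / M with hH'
  have x1 : X' ≤ X := by rw [hX', div_le_iff₀ hM0]; exact ha1
  have x2 : X - X' ≤ 1 / M := by
    rw [hX', sub_le_iff_le_add, ← add_div, le_div_iff₀ hM0]; linarith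
  have y1 : H' ≤ H := by rw [hH', div_le_iff₀ hM0]; exact hb1
  have y2 : H - H' ≤ 1 / M := by
    rw [hH', sub_le_iff_le_add, ← add_div, le_div_iff₀ hM0]; linarith
  have y3 : 0 ≤ H' := by positivity
  have x3 : (n : ℝ) - 1 ≤ X' := by
    rw [hX', le_div_iff₀ hM0]
    have h1 : (((n - 1) * n ^ (r + 4) : ℕ) : ℝ) ≤ X * M := by
      rw [Nat.cast_mul, Nat.cast_sub hnat, Nat.cast_pow]
      exact mul_le_mul_of_nonneg_right (by push_cast; linarith) hM0.le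
    have h2 : (((n - 1) * n ^ (r + 4) : ℕ) : ℝ) ≤ a := by
      exact_mod_cast Nat.le_floor h1
    rw [Nat.cast_mul, Nat.cast_sub hnat, Nat.cast_pow] at h2
    push_cast at h2
    exact h2
  have x4 : X ≤ 2 * X' := by linarith
  have x5 : 1 ≤ X' := by linarith
  have x6 : 0 < X' := by linarith
  have hMi : 1 / M ≤ 1 := by rw [div_le_one hM0]; exact hM1
  have g1 : 2 ≤ X ^ (ε / 2) := hX₁ X hXa'
  have g2 : 2 ≤ X' ^ (ε / 2) := hX₁ X' (by linarith)
  have g3 : 2 + 3 ^ r * (4 + r) ≤ X ^ (δ / 8) := hX₂ X hXb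
  have c2 : X' ^ (ε / 2) ≤ H' := by
    have e1 : X ^ ε = X ^ (ε / 2) * X ^ (ε / 2) := by
      rw [← Real.rpow_add hX0]; congr 1; ring
    have e2 : X' ^ (ε / 2) ≤ X ^ (ε / 2) := Real.rpow_le_rpow x6.le x1 hε'.le
    nlinarith
  have c3 : H' ≤ X' ^ (1 - ε / 2) := by
    have e1 : X ^ (1 - ε) ≤ 2 * X' ^ (1 - ε) := by
      calc X ^ (1 - ε) ≤ (2 * X') ^ (1 - ε) := Real.rpow_le_rpow hX0.le x4 (by linarith)
        _ = 2 ^ (1 - ε) * X' ^ (1 - ε) := Real.mul_rpow (by norm_num) x6.le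
        _ ≤ 2 ^ (1 : ℝ) * X' ^ (1 - ε) := mul_le_mul_of_nonneg_right
            (Real.rpow_le_rpow_of_exponent_le (by norm_num) (by linarith)) (by positivity)
        _ = _ := by rw [Real.rpow_one]
    have e2 : X' ^ (1 - ε / 2) = X' ^ (ε / 2) * X' ^ (1 - ε) := by
      rw [← Real.rpow_add x6]; congr 1; ring
    have e3 : 0 < X' ^ (1 - ε) := Real.rpow_pos_of_pos x6 _
    rw [e2]
    calc H' ≤ H := y1
      _ ≤ X ^ (1 - ε) := hHu
      _ ≤ 2 * X' ^ (1 - ε) := e1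
      _ ≤ _ := mul_le_mul_of_nonneg_right g2 e3.le
  have hC : Cond r (ε / 2) n a b := ⟨x3, c2, c3⟩
  have hz : (a, b) ∈ Finset.range (n ^ (r + 5) + 1) ×ˢ Finset.range (n ^ (r + 5) + 1) := by
    rw [Finset.mem_product, Finset.mem_range, Finset.mem_range]
    have e5 : (n : ℝ) * M = ((n ^ (r + 5) : ℕ) : ℝ) := by
      rw [hM]; push_cast; ring
    constructor
    · have h2 : (a : ℝ) ≤ ((n ^ (r + 5) : ℕ) : ℝ) := by
        rw [← e5]
        exact ha1.trans (mul_le_mul_of_nonneg_right hn1 hM0.le)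
      have : a ≤ n ^ (r + 5) := by exact_mod_cast h2
      omega
    · have h2 : (b : ℝ) ≤ ((n ^ (r + 5) : ℕ) : ℝ) := by
        rw [← e5]
        exact hb1.trans (mul_le_mul_of_nonneg_right (hHX.trans hn1) hM0.le)
      have : b ≤ n ^ (r + 5) := by exact_mod_cast h2
      omega
  have hz2 : |De X' H' r (3 * n) (sgq c q)| ≤ √(H' ^ r) * X' ^ (-(δ / 4)) := by
    by_contra hcon
    exact hbad ⟨(a, b), hz, hC, not_le.1 hcon⟩
  have k1 : √(H' ^ r) ≤ √(H ^ r) := Real.sqrt_le_sqrt (pow_le_pow_left₀ y3 y1 r)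
  have k2 : X' ^ (-(δ / 4)) ≤ 2 * X ^ (-(δ / 4)) := by
    have e1 : X / 2 ≤ X' := by linarith
    calc X' ^ (-(δ / 4)) ≤ (X / 2) ^ (-(δ / 4)) :=
          Real.rpow_le_rpow_of_nonpos (by linarith) e1 (by linarith)
      _ = X ^ (-(δ / 4)) / 2 ^ (-(δ / 4)) := Real.div_rpow hX0.le (by norm_num) _
      _ = 2 ^ (δ / 4) * X ^ (-(δ / 4)) := by
          rw [Real.rpow_neg (by norm_num : (0 : ℝ) ≤ 2)]
          field_simp
      _ ≤ 2 ^ (1 : ℝ) * X ^ (-(δ / 4)) := mul_le_mul_of_nonneg_right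
          (Real.rpow_le_rpow_of_exponent_le (by norm_num) (by linarith)) (by positivity)
      _ = _ := by rw [Real.rpow_one]
  have hrt : 1 ≤ √(H ^ r) := by
    rw [Real.one_le_sqrt]
    exact one_le_pow₀ hH1
  have k3 := De_lip (s := sgq c q) (sgq_val hc q) (N := 3 * n) hr x5 x1 y3 y1 hHX
  have k4 : ((3 * n : ℕ) : ℝ) ^ r * (4 * |X - X'| + r * |H - H'|) ≤
      3 ^ r * (4 + r) * X ^ (-(δ / 4)) := by
    rw [abs_of_nonneg (by linarith), abs_of_nonneg (by linarith)]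
    have e1 : 4 * (X - X') + r * (H - H') ≤ (4 + r) * (1 / M) := by
      have h7 : (0 : ℝ) ≤ r := Nat.cast_nonneg r
      have h8 := mul_le_mul_of_nonneg_left y2 h7
      linarith
    have e2 : (n : ℝ) ^ r * (1 / M) = 1 / (n : ℝ) ^ 4 := by
      rw [hM, pow_add]
      have : (n : ℝ) ^ r ≠ 0 := by positivity
      field_simp
    have e3 : 1 / (n : ℝ) ^ 4 ≤ X ^ (-(δ / 4)) := by
      have a1 : 1 / (n : ℝ) ^ 4 ≤ 1 / X := by
        refine one_div_le_one_div_of_le hX0 ?_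
        calc X ≤ n := hn1
          _ = (n : ℝ) ^ 1 := (pow_one _).symm
          _ ≤ (n : ℝ) ^ 4 := pow_le_pow_right₀ (by linarith) (by norm_num)
      refine a1.trans ?_
      rw [one_div, ← Real.rpow_neg_one]
      exact Real.rpow_le_rpow_of_exponent_le hX1 (by linarith)
    calc ((3 * n : ℕ) : ℝ) ^ r * (4 * (X - X') + r * (H - H'))
        ≤ ((3 * n : ℕ) : ℝ) ^ r * ((4 + r) * (1 / M)) :=
          mul_le_mul_of_nonneg_left e1 (by positivity)
      _ = 3 ^ r * (4 + r) * ((n : ℝ) ^ r * (1 / M)) := by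
          push_cast; rw [mul_pow]; ring
      _ ≤ _ := by
          rw [e2]
          exact mul_le_mul_of_nonneg_left e3 (by positivity)
  have k5 : |De X H r (3 * n) (sgq c q)| ≤
      (2 + 3 ^ r * (4 + r)) * (√(H ^ r) * X ^ (-(δ / 4))) := by
    have e1 : De X H r (3 * n) (sgq c q) = De X' H' r (3 * n) (sgq c q) +
        (De X H r (3 * n) (sgq c q) - De X' H' r (3 * n) (sgq c q)) := by ring
    have hp : 0 < X ^ (-(δ / 4)) := by positivity
    have e2 : √(H' ^ r) * X' ^ (-(δ / 4)) ≤ √(H ^ r) * (2 * X ^ (-(δ / 4))) :=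
      mul_le_mul k1 k2 (by positivity) (by positivity)
    have e3 : 3 ^ r * (4 + r) * X ^ (-(δ / 4)) ≤
        3 ^ r * (4 + r) * (√(H ^ r) * X ^ (-(δ / 4))) := by
      refine mul_le_mul_of_nonneg_left ?_ (by positivity)
      exact le_mul_of_one_le_left hp.le hrt
    rw [e1]
    refine (abs_add_le _ _).trans ?_
    linarith
  refine k5.trans ?_
  have e7 : X ^ (-(δ / 8)) = X ^ (δ / 8) * X ^ (-(δ / 4)) := by
    rw [← Real.rpow_add hX0]; congr 1; ring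
  rw [e7]
  calc (2 + 3 ^ r * (4 + r)) * (√(H ^ r) * X ^ (-(δ / 4)))
      ≤ X ^ (δ / 8) * (√(H ^ r) * X ^ (-(δ / 4))) :=
        mul_le_mul_of_nonneg_right g3 (by positivity)
    _ = _ := by ring

end Pool.Agent.U585.QC
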