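import Mathlib
import Pool.Agent.Helper919.NonRes

/-!
# Incomplete sums of the Jacobi symbol over odd moduli
-/

set_option autoImplicit false

open Finset

namespace Pool.Agent.U585.QC

/-- the symbol as a function of an odd modulus -/
def gj (M d : ℕ) : ℤ := if Odd d then jacobiSym M d else 0

lemma gj_abs (M d : ℕ) : |gj M d| ≤ 1 := by
  unfold gj
  split_ifs with h
  · rcases jacobiSym.trichotomy (M : ℤ) d with h | h | h <;> rw [h] <;> norm_num
  · simp

lemma gj_mod (M d : ℕ) : gj M (d % (4 * M)) = gj M d := by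
  unfold gj
  have h1 : Odd (d % (4 * M)) ↔ Odd d := by
    rw [Nat.odd_iff, Nat.odd_iff, Nat.mod_mod_of_dvd _ (Dvd.intro_left (2 * M) (by ring))]
  by_cases h : Odd d
  · rw [if_pos (h1.2 h), if_pos h, jacobiSym.mod_right' M h]
  · rw [if_neg (fun h2 => h (h1.1 h2)), if_neg h]

lemma gj_mul (M d e : ℕ) (he : Odd e) : gj M (d * e) = gj M d * jacobiSym M e := by
  unfold gj
  by_cases h : Odd d
  · rw [if_pos (h.mul he), if_pos h, jacobiSym.mul_right' _ h.pos.ne' he.pos.ne']
  · rw [if_neg, if_neg h, zero_mul]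
    rw [Nat.odd_mul]
    tauto

lemma gj_period (M : ℕ) (hM : ¬ IsSquare M) : ∑ d ∈ range (4 * M), gj M d = 0 := by
  have hM0 : M ≠ 0 := by
    rintro rfl
    exact hM ⟨0, rfl⟩
  obtain ⟨e, he, hJ⟩ := Pool.Agent.Helper919.exists_jacobi_neg_one (M : ℤ)
    (fun h => hM (Int.isSquare_natCast_iff.1 h))
  have hcop : Nat.Coprime e (4 * M) := by
    have h1 : (M : ℤ).gcd e = 1 := by
      by_contra h2
      have : jacobiSym M e = 0 := jacobiSym.eq_zero_iff.2 ⟨he.pos.ne', h2⟩
      rw [this] at hJ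
      norm_num at hJ
    have h3 : Nat.Coprime M e := by
      have : (M : ℤ).gcd (e : ℤ) = Nat.gcd M e := Int.gcd_natCast_natCast M e
      rw [this] at h1
      exact h1
    have h4 : Nat.Coprime e 4 := by
      rw [show (4 : ℕ) = 2 ^ 2 by norm_num]
      exact Nat.Coprime.pow_right 2 (Nat.coprime_two_right.2 he)
    exact Nat.Coprime.mul_right h4 h3.symm
  have hm0 : 0 < 4 * M := by omega
  have key : ∑ d ∈ range (4 * M), gj M d = ∑ d ∈ range (4 * M), gj M ((d * e) % (4 * M)) := by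
    symm
    refine Finset.sum_bij (fun d _ => (d * e) % (4 * M)) ?_ ?_ ?_ ?_
    · intro d _
      exact mem_range.2 (Nat.mod_lt _ hm0)
    · intro a ha b hb hab
      have h1 : a * e ≡ b * e [MOD 4 * M] := hab
      have h2 : a ≡ b [MOD 4 * M] := Nat.ModEq.cancel_right_of_coprime (by rw [Nat.gcd_comm]; exact hcop) h1
      have h3 : a % (4 * M) = b % (4 * M) := h2
      rwa [Nat.mod_eq_of_lt (mem_range.1 ha), Nat.mod_eq_of_lt (mem_range.1 hb)] at h3
    · intro b hb
      have hinj : Set.InjOn (fun d => (d * e) % (4 * M)) (range (4 * M)) := by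
        intro a ha b hb hab
        have h1 : a * e ≡ b * e [MOD 4 * M] := hab
        have h2 : a ≡ b [MOD 4 * M] := Nat.ModEq.cancel_right_of_coprime (by rw [Nat.gcd_comm]; exact hcop) h1
        have h3 : a % (4 * M) = b % (4 * M) := h2
        rwa [Nat.mod_eq_of_lt (mem_range.1 (mem_coe.1 ha)),
          Nat.mod_eq_of_lt (mem_range.1 (mem_coe.1 hb))] at h3
      have hmaps : ∀ d ∈ range (4 * M), (d * e) % (4 * M) ∈ range (4 * M) := fun d _ =>
        mem_range.2 (Nat.mod_lt _ hm0)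
      obtain ⟨a, ha, hab⟩ := Finset.surj_on_of_inj_on_of_card_le (s := range (4 * M))
        (t := range (4 * M)) (fun d _ => (d * e) % (4 * M)) (fun d hd => hmaps d hd)
        (fun a b ha hb hab => hinj (mem_coe.2 ha) (mem_coe.2 hb) hab) le_rfl b hb
      exact ⟨a, ha, hab.symm⟩
    · intro d _
      rfl
  have key2 : ∑ d ∈ range (4 * M), gj M d = -∑ d ∈ range (4 * M), gj M d := by
    conv_lhs => rw [key]
    rw [← sum_neg_distrib]
    refine sum_congr rfl fun d _ => ?_
    rw [gj_mod, gj_mul M d e he, hJ]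
    ring
  omega

lemma gj_sum (M : ℕ) (hM : ¬ IsSquare M) (Q : ℕ) : |∑ d ∈ range Q, gj M d| ≤ 4 * M := by
  have hM0 : M ≠ 0 := by
    rintro rfl
    exact hM ⟨0, rfl⟩
  have hm0 : 0 < 4 * M := by omega
  have h1 : ∀ k r : ℕ, ∑ d ∈ range (4 * M * k + r), gj M d = ∑ d ∈ range r, gj M d := by
    intro k
    induction k with
    | zero => intro r; simp
    | succ k ih =>
      intro r
      rw [show 4 * M * (k + 1) + r = 4 * M * k + (4 * M + r) by ring, ih (4 * M + r),
        Finset.sum_range_add, gj_period M hM, zero_add]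
      refine sum_congr rfl fun d _ => ?_
      rw [← gj_mod M (4 * M + d), Nat.add_mod_left, gj_mod]
  have h2 := h1 (Q / (4 * M)) (Q % (4 * M))
  rw [Nat.div_add_mod] at h2
  rw [h2]
  calc |∑ d ∈ range (Q % (4 * M)), gj M d| ≤ ∑ d ∈ range (Q % (4 * M)), |gj M d| := abs_sum_le_sum_abs _ _
    _ ≤ ∑ _d ∈ range (Q % (4 * M)), (1 : ℤ) := sum_le_sum fun d _ => gj_abs M d
    _ = ((Q % (4 * M) : ℕ) : ℤ) := by simp
    _ ≤ 4 * M := by exact_mod_cast (Nat.mod_lt _ hm0).le

/-- the sum of the symbols over the odd moduli below `Q` -/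
lemma jac_sum (M : ℕ) (hM : ¬ IsSquare M) (Q : ℕ) :
    |∑ d ∈ (range Q).filter (fun d => Odd d), ((jacobiSym M d : ℤ) : ℝ)| ≤ 4 * M := by
  have h1 : ∑ d ∈ (range Q).filter (fun d => Odd d), ((jacobiSym M d : ℤ) : ℝ) =
      ((∑ d ∈ range Q, gj M d : ℤ) : ℝ) := by
    rw [sum_filter]
    push_cast
    refine sum_congr rfl fun d _ => ?_
    unfold gj
    split_ifs <;> simp
  rw [h1]
  have := gj_sum M hM Q
  exact_mod_cast this

end Pool.Agent.U585.QC
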