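import Pool.Agent.U585.QC.Itp

/-!
# The moments tend to the normal moments
-/

set_option autoImplicit false
set_option linter.unusedSectionVars false

open MeasureTheory Filter Topology ProbabilityTheory

namespace Pool.Agent.U585.QC

open Pool.Agent.U585.GC (Signs PN mem_PN poly)
open Pool.Agent.U585.GA (De dl dl_pos dl_le Near law law_mom law_mom_eq mom_lim m0 mr mr_eq sd sd_pos le_sd ae_near
  term_lim)

/-- a fair coin -/
noncomputable def coin : Measure Bool := (2⁻¹ : ENNReal) • (Measure.dirac true + Measure.dirac false)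

instance : IsProbabilityMeasure coin := ⟨by
  unfold coin
  rw [Measure.smul_apply, Measure.add_apply, Measure.dirac_apply_of_mem (Set.mem_univ _),
    Measure.dirac_apply_of_mem (Set.mem_univ _), smul_eq_mul, one_add_one_eq_two,
    ENNReal.inv_mul_cancel (by norm_num) (by norm_num)]⟩

/-- the sign of a coin -/
def sgn (b : Bool) : ℝ := if b then 1 else -1

lemma sgn_int : ∫ b, sgn b ∂coin = 0 := by
  unfold coin
  rw [integral_smul_measure, integral_add_measure (Integrable.of_finite) (Integrable.of_finite),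
    integral_dirac, integral_dirac]
  simp [sgn]

lemma coin_signs : Signs (Measure.infinitePi fun _ : ℕ => coin) (fun p (ω : ℕ → Bool) => sgn (ω p)) where
  meas p := (measurable_of_countable sgn).comp (measurable_pi_apply p)
  indep := iIndepFun_infinitePi (X := fun _ => sgn) fun _ => measurable_of_countable sgn
  val p ω := by unfold sgn; split_ifs <;> simp
  mean p := by
    have h1 := measurePreserving_eval_infinitePi (fun _ : ℕ => coin) p
    have h2 : ∫ b, sgn b ∂((Measure.infinitePi fun _ : ℕ => coin).map (Function.eval p)) =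
        ∫ ω, sgn (Function.eval p ω) ∂(Measure.infinitePi fun _ : ℕ => coin) :=
      integral_map h1.measurable.aemeasurable (measurable_of_countable sgn).aestronglyMeasurable
    rw [h1.map_eq, sgn_int] at h2
    exact h2.symm

lemma exists_near : ∃ s : ℕ → ℝ, (∀ p, s p = 1 ∨ s p = -1) ∧ ∀ ε : ℝ, 0 < ε → Near s (min ε (1 / 2)) := by
  have h1 := ae_near coin_signs
  obtain ⟨ω, hω⟩ := h1.exists
  exact ⟨_, fun p => coin_signs.val p ω, hω⟩

/-- the part without cancellation has the normal moments -/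
theorem m0_unif {ε : ℝ} (hε : 0 < ε) (hε2 : ε ≤ 1 / 2) (r : ℕ) (η : ℝ) (hη : 0 < η) :
    ∃ X₀ : ℝ, ∀ X H : ℝ, X₀ ≤ X → X ^ ε ≤ H → H ≤ X ^ (1 - ε) →
      |m0 X H r (3 * ⌈X⌉₊) / sd H ^ r - ∫ y, y ^ r ∂(gaussianReal 0 1)| ≤ η := by
  classical
  by_contra hcon
  push Not at hcon
  obtain ⟨s, hs, hnear⟩ := exists_near
  set Bad : ℝ → ℝ → Prop := fun X H => X ^ ε ≤ H ∧ H ≤ X ^ (1 - ε) ∧
    η < |m0 X H r (3 * ⌈X⌉₊) / sd H ^ r - ∫ y, y ^ r ∂(gaussianReal 0 1)| with hBad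
  set Hf : ℝ → ℝ := fun X => if h : ∃ H, Bad X H then h.choose else X ^ (1 / 2 : ℝ) with hHf
  have hε' : 0 < ε / 2 := by linarith
  have hH : ∀ᶠ X in atTop, X ^ (ε / 2) < Hf X ∧ Hf X < X ^ (1 - ε / 2) := by
    filter_upwards [eventually_gt_atTop 1] with X hX1
    by_cases h : ∃ H, Bad X H
    · have h2 : Hf X = h.choose := by rw [hHf]; exact dif_pos h
      have h3 := h.choose_spec
      rw [← h2] at h3
      exact ⟨lt_of_lt_of_le (Real.rpow_lt_rpow_of_exponent_lt hX1 (by linarith)) h3.1,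
        lt_of_le_of_lt h3.2.1 (Real.rpow_lt_rpow_of_exponent_lt hX1 (by linarith))⟩
    · have h2 : Hf X = X ^ (1 / 2 : ℝ) := by rw [hHf]; exact dif_neg h
      rw [h2]
      exact ⟨Real.rpow_lt_rpow_of_exponent_lt hX1 (by linarith),
        Real.rpow_lt_rpow_of_exponent_lt hX1 (by linarith)⟩
  have hn : Near s (ε / 2) := by
    have := hnear (ε / 2) hε'
    rwa [min_eq_left (by linarith)] at this
  have h1 := mom_lim hs hε' hn hH r
  have h2 := term_lim hε' hn hH 1 r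
  have h3 : Tendsto (fun X : ℝ => De X (Hf X) r (3 * ⌈X⌉₊) s / sd (Hf X) ^ r) atTop (𝓝 0) := by
    have h4 := h2.const_mul (r.factorial : ℝ)
    rw [mul_zero] at h4
    refine squeeze_zero_norm' ?_ h4
    filter_upwards [hH, eventually_ge_atTop 1] with X hX hX1
    have hHp : 0 < Hf X := lt_trans (Real.rpow_pos_of_pos (by linarith) _) hX.1
    have h5 := sd_pos hHp
    rw [Real.norm_eq_abs, abs_div, abs_of_pos (pow_pos h5 r), abs_div, abs_one, abs_of_pos h5]
    refine le_of_eq ?_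
    have h6 : (r.factorial : ℝ) ≠ 0 := by exact_mod_cast r.factorial_ne_zero
    rw [div_pow, one_pow]
    field_simp
  have h4 := h1.sub h3
  rw [sub_zero] at h4
  have h5 : ∀ᶠ X in atTop, |m0 X (Hf X) r (3 * ⌈X⌉₊) / sd (Hf X) ^ r -
      ∫ y, y ^ r ∂(gaussianReal 0 1)| ≤ η := by
    rw [Metric.tendsto_nhds] at h4
    filter_upwards [h4 η hη, hH, eventually_ge_atTop 1] with X h6 hX hX1
    have hXp : 0 < X := by linarith
    have hHp : 0 < Hf X := lt_trans (Real.rpow_pos_of_pos hXp _) hX.1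
    have hHX : Hf X ≤ X := hX.2.le.trans (by
      calc X ^ (1 - ε / 2) ≤ X ^ (1 : ℝ) := Real.rpow_le_rpow_of_exponent_le hX1 (by linarith)
        _ = X := Real.rpow_one X)
    have hN : 3 * X ≤ ((3 * ⌈X⌉₊ : ℕ) : ℝ) := by
      push_cast
      have := Nat.le_ceil X
      linarith
    rw [← law_mom s hXp, law_mom_eq s hXp hHp hHX, mr_eq hs r hXp hHp hHX hN, add_div,
      add_sub_cancel_left, Real.dist_eq] at h6
    exact h6.le
  obtain ⟨X₁, hX₁⟩ := eventually_atTop.1 h5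
  obtain ⟨X, H, a1, a2, a3, a4⟩ := hcon X₁
  have hex : ∃ H, Bad X H := ⟨H, a2, a3, a4⟩
  have h6 : Hf X = hex.choose := by rw [hHf]; exact dif_pos hex
  have h7 := hex.choose_spec
  rw [← h6] at h7
  exact absurd (hX₁ X a1) (not_le.2 h7.2.2)

/-- the moments for the good primes -/
theorem mom_near {c : ℕ → ℝ} (hc : ∀ p, c p = 1 ∨ c p = -1) {ε : ℝ} (hε : 0 < ε) (hε2 : ε ≤ 1 / 2) (r : ℕ)
    (hr : 1 ≤ r) (η : ℝ) (hη : 0 < η) :
    ∃ X₀ : ℝ, 4 ≤ X₀ ∧ ∀ (X H : ℝ) (q : ℕ), X₀ ≤ X → X ^ ε ≤ H → H ≤ X ^ (1 - ε) →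
      ¬ badq c r (ε / 2) ⌈X⌉₊ q →
      |∫ y, y ^ r ∂(law (sgq c q) X H) - ∫ y, y ^ r ∂(gaussianReal 0 1)| ≤ η := by
  obtain ⟨X₁, hX₁, h1⟩ := De_small hc hr hε hε2
  obtain ⟨X₂, h2⟩ := m0_unif hε hε2 r (η / 2) (by linarith)
  have hd := dl_pos hr (by linarith : 0 < ε / 2)
  set δ := dl r (ε / 2) / 8 with hδ
  have hδ0 : 0 < δ := by linarith
  obtain ⟨X₃, h3⟩ : ∃ X₃ : ℝ, ∀ X : ℝ, X₃ ≤ X → 2 ^ r * X ^ (-δ) ≤ η / 2 := by
    have := (tendsto_rpow_neg_atTop hδ0).const_mul ((2 : ℝ) ^ r)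
    rw [mul_zero] at this
    exact eventually_atTop.1 (this.eventually_le_const (by linarith))
  refine ⟨max X₁ (max X₂ X₃), hX₁.trans (le_max_left _ _), fun X H q hX hl hu hb => ?_⟩
  have x1 := (le_max_left _ _).trans hX
  have x2 := ((le_max_left _ _).trans (le_max_right _ _)).trans hX
  have x3 := ((le_max_right _ _).trans (le_max_right _ _)).trans hX
  have hX4 : 4 ≤ X := hX₁.trans x1
  have hX0 : 0 < X := by linarith
  have hX1 : 1 ≤ X := by linarith
  have hH1 : 1 ≤ H := (Real.one_le_rpow hX1 hε.le).trans hl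
  have hH0 : 0 < H := by linarith
  have hHX : H ≤ X := hu.trans (by
    calc X ^ (1 - ε) ≤ X ^ (1 : ℝ) := Real.rpow_le_rpow_of_exponent_le hX1 (by linarith)
      _ = X := Real.rpow_one X)
  have hN : 3 * X ≤ ((3 * ⌈X⌉₊ : ℕ) : ℝ) := by
    push_cast
    have := Nat.le_ceil X
    linarith
  have g1 := h1 X H q x1 hl hu hb
  have g2 := h2 X H x2 hl hu
  have g3 := h3 X x3
  have hsd := sd_pos hH0
  have hsr : 0 < sd H ^ r := pow_pos hsd r
  rw [law_mom_eq _ hX0 hH0 hHX, mr_eq (sgq_val hc q) r hX0 hH0 hHX hN, add_div]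
  have g4 : |De X H r (3 * ⌈X⌉₊) (sgq c q) / sd H ^ r| ≤ η / 2 := by
    rw [abs_div, abs_of_pos hsr, div_le_iff₀ hsr]
    have h4 : √(H ^ r) = √H ^ r := by
      rw [Real.sqrt_eq_rpow, Real.sqrt_eq_rpow, ← Real.rpow_natCast, ← Real.rpow_natCast,
        ← Real.rpow_mul hH0.le, ← Real.rpow_mul hH0.le, mul_comm]
    have h5 : √H ^ r ≤ 2 ^ r * sd H ^ r := by
      rw [← mul_pow]
      exact pow_le_pow_left₀ (Real.sqrt_nonneg _) (le_sd hH0.le) r
    have h6 : 0 ≤ X ^ (-δ) := by positivity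
    calc |De X H r (3 * ⌈X⌉₊) (sgq c q)| ≤ √(H ^ r) * X ^ (-δ) := g1
      _ ≤ (2 ^ r * sd H ^ r) * X ^ (-δ) := by rw [h4]; exact mul_le_mul_of_nonneg_right h5 h6
      _ = (2 ^ r * X ^ (-δ)) * sd H ^ r := by ring
      _ ≤ _ := mul_le_mul_of_nonneg_right g3 hsr.le
  rw [abs_le] at g2 g4 ⊢
  constructor <;> linarith

end Pool.Agent.U585.QC
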