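import Pool.Agent.U585.QC.Jac
import Pool.Agent.U585.GC.Hyp
import Pool.Agent.U585.GC.Cnt

/-!
# Moments of a polynomial over the quadratic characters and over independent signs
-/

set_option autoImplicit false
set_option linter.unusedSectionVars false

open Finset MeasureTheory ProbabilityTheory

namespace Pool.Agent.U585.QC

open Pool.Agent.U585.GC (Signs PN mem_PN poly)

/-- the signs `c p (p / d)` -/
noncomputable def sj (c : ℕ → ℝ) (d p : ℕ) : ℝ := c p * ((jacobiSym p d : ℤ) : ℝ)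

/-- the product of the entries -/
def Mt {m : ℕ} (t : Fin m → Finset ℕ) : ℕ := ∏ j, ∏ p ∈ t j, p

lemma prod_jac (d : ℕ) (T : Finset ℕ) :
    ∏ p ∈ T, ((jacobiSym p d : ℤ) : ℝ) = ((jacobiSym ((∏ p ∈ T, p : ℕ) : ℤ) d : ℤ) : ℝ) := by
  classical
  induction T using Finset.induction_on with
  | empty => simp [jacobiSym.one_left]
  | insert q T hq ih =>
    rw [prod_insert hq, prod_insert hq, ih]
    push_cast
    rw [jacobiSym.mul_left]
    push_cast
    rfl

lemma prod_jac2 {m : ℕ} (d : ℕ) (t : Fin m → ℕ) (s : Finset (Fin m)) :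
    ∏ j ∈ s, ((jacobiSym (t j) d : ℤ) : ℝ) = ((jacobiSym ((∏ j ∈ s, t j : ℕ) : ℤ) d : ℤ) : ℝ) := by
  classical
  induction s using Finset.induction_on with
  | empty => simp [jacobiSym.one_left]
  | insert q T hq ih =>
    rw [prod_insert hq, prod_insert hq, ih]
    push_cast
    rw [jacobiSym.mul_left]
    push_cast
    rfl

lemma prod_tuple {m : ℕ} (c : ℕ → ℝ) (d : ℕ) (t : Fin m → Finset ℕ) :
    ∏ j, ∏ p ∈ t j, sj c d p = (∏ j, ∏ p ∈ t j, c p) * ((jacobiSym (Mt t) d : ℤ) : ℝ) := by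
  unfold sj Mt
  simp_rw [prod_mul_distrib]
  congr 1
  simp_rw [prod_jac]
  exact prod_jac2 d (fun j => ∏ p ∈ t j, p) univ

lemma poly_pow (S : Finset ℕ) (a : Finset ℕ → ℝ) (s : ℕ → ℝ) (m : ℕ) :
    poly S a s ^ m = ∑ t ∈ Fintype.piFinset (fun _ : Fin m => S.powerset),
      (∏ j, a (t j)) * ∏ j, ∏ p ∈ t j, s p := by
  classical
  unfold poly
  have h2 : (∑ T ∈ S.powerset, a T * ∏ p ∈ T, s p) ^ m =
      ∏ _i : Fin m, ∑ T ∈ S.powerset, a T * ∏ p ∈ T, s p := by
    rw [prod_const, card_univ, Fintype.card_fin]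
  rw [h2, prod_univ_sum]
  refine sum_congr rfl fun t _ => ?_
  rw [prod_mul_distrib]

/-- how often `p` occurs -/
def ee {m : ℕ} (t : Fin m → Finset ℕ) (p : ℕ) : ℕ := (univ.filter (fun j => p ∈ t j)).card

lemma prod_exch {M : Type} [CommMonoid M] {m : ℕ} {S : Finset ℕ} {t : Fin m → Finset ℕ} (ht : ∀ j, t j ⊆ S)
    (g : ℕ → M) : ∏ j, ∏ p ∈ t j, g p = ∏ p ∈ S, g p ^ ee t p := by
  classical
  have h1 : ∀ j, ∏ p ∈ t j, g p = ∏ p ∈ S, if p ∈ t j then g p else 1 := by
    intro j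
    rw [← prod_filter]
    congr 1
    ext p
    rw [mem_filter]
    exact ⟨fun h => ⟨ht j h, h⟩, fun h => h.2⟩
  simp_rw [h1]
  rw [prod_comm]
  refine prod_congr rfl fun p _ => ?_
  rw [← prod_filter, prod_const]
  rfl

lemma sq_iff {m N : ℕ} {t : Fin m → Finset ℕ} (ht : ∀ j, t j ⊆ PN N) :
    IsSquare (Mt t) ↔ ∀ p ∈ PN N, Even (ee t p) := by
  classical
  have h1 : Mt t = ∏ p ∈ PN N, p ^ ee t p := prod_exch ht fun p => p
  constructor
  · rintro ⟨y, hy⟩ p hp
    have hpp := (mem_PN.1 hp).1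
    have hne : Mt t ≠ 0 := by
      rw [h1]
      exact prod_ne_zero_iff.2 fun q hq => pow_ne_zero _ (mem_PN.1 hq).1.ne_zero
    have hy0 : y ≠ 0 := by
      rintro rfl
      exact hne (by simpa using hy)
    have h2 : (Mt t).factorization p = ee t p := by
      rw [h1, Nat.factorization_prod fun q hq => pow_ne_zero _ (mem_PN.1 hq).1.ne_zero]
      rw [Finsupp.finset_sum_apply, sum_eq_single p]
      · rw [hpp.factorization_pow]; simp
      · intro q hq hqp
        rw [(mem_PN.1 hq).1.factorization_pow]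
        simp [Finsupp.single_apply, hqp]
      · intro h; exact absurd hp h
    rw [← h2, hy, Nat.factorization_mul hy0 hy0]
    exact ⟨y.factorization p, rfl⟩
  · intro h
    refine ⟨∏ p ∈ PN N, p ^ (ee t p / 2), ?_⟩
    rw [h1, ← prod_mul_distrib]
    refine prod_congr rfl fun p hp => ?_
    rw [← pow_add]
    congr 1
    have := Nat.even_iff.1 (h p hp)
    omega

lemma prod_one_of_sq {m N : ℕ} {t : Fin m → Finset ℕ} (ht : ∀ j, t j ⊆ PN N) (h : IsSquare (Mt t))
    {s : ℕ → ℝ} (hs : ∀ p, s p = 1 ∨ s p = -1) : ∏ j, ∏ p ∈ t j, s p = 1 := by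
  rw [prod_exch ht s]
  refine prod_eq_one fun p hp => ?_
  obtain ⟨k, hk⟩ := (sq_iff ht).1 h p hp
  rw [hk, ← two_mul, pow_mul]
  have : s p ^ 2 = 1 := by rcases hs p with h | h <;> rw [h] <;> norm_num
  rw [this, one_pow]

variable {Ω : Type} [mΩ : MeasurableSpace Ω] {P : Measure Ω} [IsProbabilityMeasure P] {f : ℕ → Ω → ℝ}

lemma int_tuple (h : Signs P f) {m N : ℕ} {t : Fin m → Finset ℕ} (ht : ∀ j, t j ⊆ PN N) :
    (IsSquare (Mt t) → ∫ ω, ∏ j, ∏ p ∈ t j, f p ω ∂P = 1) ∧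
      (¬ IsSquare (Mt t) → ∫ ω, ∏ j, ∏ p ∈ t j, f p ω ∂P = 0) := by
  classical
  constructor
  · intro hq
    have : ∀ ω, ∏ j, ∏ p ∈ t j, f p ω = 1 := fun ω =>
      prod_one_of_sq ht hq (s := fun p => f p ω) fun p => h.val p ω
    simp_rw [this]
    simp
  · intro hq
    have h1 : ∃ p ∈ PN N, ¬ Even (ee t p) := by
      by_contra h2
      push Not at h2
      exact hq ((sq_iff ht).2 h2)
    obtain ⟨q, hqN, hqe⟩ := h1
    have h2 : ∀ ω, ∏ j, ∏ p ∈ t j, f p ω = ∏ p : PN N, f p ω ^ ee t p := by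
      intro ω
      rw [prod_exch ht (fun p => f p ω)]
      exact (Finset.prod_coe_sort (PN N) (fun p => f p ω ^ ee t p)).symm
    simp_rw [h2]
    have hind : iIndepFun (fun (p : PN N) => f p) P := h.indep.precomp Subtype.val_injective
    have h3 := hind.integral_fun_prod_comp (f := fun (p : PN N) (x : ℝ) => x ^ ee t p)
      (fun p => (h.meas p).aemeasurable) (fun p => (measurable_id.pow_const _).aestronglyMeasurable)
    rw [h3]
    refine prod_eq_zero (mem_univ ⟨q, hqN⟩) ?_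
    obtain ⟨k, hk⟩ := Nat.not_even_iff_odd.1 hqe
    have h4 : ∀ ω, f q ω ^ ee t q = f q ω := by
      intro ω
      rw [hk, pow_succ, pow_mul]
      have : f q ω ^ 2 = 1 := by rcases h.val q ω with h | h <;> rw [h] <;> norm_num
      rw [this, one_pow, one_mul]
    change ∫ ω, f q ω ^ ee t q ∂P = 0
    simp_rw [h4]
    exact h.mean q

/-- **comparison of the moments** -/
theorem transfer (h : Signs P f) {c : ℕ → ℝ} (hc : ∀ p, c p = 1 ∨ c p = -1) (N : ℕ) {a : Finset ℕ → ℝ}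
    (ha : ∀ U, 0 ≤ a U) (m Q : ℕ) :
    ∑ d ∈ (range Q).filter (fun d => Odd d), poly (PN N) a (sj c d) ^ m ≤
      Q * ∫ ω, poly (PN N) a (fun p => f p ω) ^ m ∂P + 4 * poly (PN N) a (fun p => (p : ℝ)) ^ m := by
  classical
  have hint : ∫ ω, poly (PN N) a (fun p => f p ω) ^ m ∂P =
      ∑ t ∈ Fintype.piFinset (fun _ : Fin m => (PN N).powerset),
        (∏ j, a (t j)) * ∫ ω, ∏ j, ∏ p ∈ t j, f p ω ∂P := by
    simp_rw [poly_pow]
    rw [integral_finsetSum]
    · refine sum_congr rfl fun t _ => ?_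
      rw [integral_const_mul]
    · intro t _
      refine Integrable.const_mul ?_ _
      refine Integrable.mono' (g := fun _ => (1 : ℝ)) (integrable_const _) ?_ (ae_of_all _ fun ω => ?_)
      · refine Measurable.aestronglyMeasurable ?_
        exact Finset.measurable_prod _ fun j _ => Finset.measurable_prod _ fun p _ => h.meas p
      · rw [Real.norm_eq_abs, abs_prod]
        refine (prod_eq_one fun j _ => ?_).le
        rw [abs_prod]
        refine prod_eq_one fun p _ => ?_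
        rcases h.val p ω with h | h <;> rw [h] <;> simp
  rw [hint]
  simp_rw [poly_pow]
  rw [sum_comm, mul_sum, mul_sum, ← sum_add_distrib]
  refine sum_le_sum fun t ht => ?_
  have ht' : ∀ j, t j ⊆ PN N := fun j => mem_powerset.1 (Fintype.mem_piFinset.1 ht j)
  have hA : 0 ≤ ∏ j, a (t j) := prod_nonneg fun j _ => ha _
  rw [← mul_sum]
  simp_rw [prod_tuple]
  rw [← mul_sum]
  have hM : ∏ j, ∏ p ∈ t j, (p : ℝ) = (Mt t : ℝ) := by
    unfold Mt; push_cast; rfl
  rw [hM]
  have hM0 : (0 : ℝ) ≤ (Mt t : ℝ) := Nat.cast_nonneg _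
  have key : (∏ j, ∏ p ∈ t j, c p) * ∑ d ∈ (range Q).filter (fun d => Odd d), ((jacobiSym (Mt t) d : ℤ) : ℝ) ≤
      Q * (∫ ω, ∏ j, ∏ p ∈ t j, f p ω ∂P) + 4 * (Mt t : ℝ) := by
    by_cases hq : IsSquare (Mt t)
    · rw [prod_one_of_sq ht' hq hc, (int_tuple h ht').1 hq, one_mul, mul_one]
      have h1 : ∑ d ∈ (range Q).filter (fun d => Odd d), ((jacobiSym (Mt t) d : ℤ) : ℝ) ≤
          ∑ _d ∈ (range Q).filter (fun d => Odd d), (1 : ℝ) := by
        refine sum_le_sum fun d _ => ?_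
        rcases jacobiSym.trichotomy (Mt t : ℤ) d with h | h | h <;> rw [h] <;> norm_num
      rw [sum_const, nsmul_eq_mul, mul_one] at h1
      have h2 : (((range Q).filter (fun d => Odd d)).card : ℝ) ≤ Q := by
        exact_mod_cast (card_filter_le _ _).trans (by rw [card_range])
      linarith
    · rw [(int_tuple h ht').2 hq, mul_zero, zero_add]
      have h1 := jac_sum (Mt t) hq Q
      have h2 : |∏ j, ∏ p ∈ t j, c p| = 1 := by
        rw [abs_prod]
        refine prod_eq_one fun j _ => ?_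
        rw [abs_prod]
        refine prod_eq_one fun p _ => ?_
        rcases hc p with h | h <;> rw [h] <;> simp
      refine (le_abs_self _).trans ?_
      rw [abs_mul, h2, one_mul]
      exact h1
  calc (∏ j, a (t j)) * ((∏ j, ∏ p ∈ t j, c p) *
        ∑ d ∈ (range Q).filter (fun d => Odd d), ((jacobiSym (Mt t) d : ℤ) : ℝ))
      ≤ (∏ j, a (t j)) * (Q * (∫ ω, ∏ j, ∏ p ∈ t j, f p ω ∂P) + 4 * (Mt t : ℝ)) :=
        mul_le_mul_of_nonneg_left key hA
    _ = _ := by ring

end Pool.Agent.U585.QC
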