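import Pool.Agent.U585.QC.Cdf

/-!
# The union over the levels
-/

set_option autoImplicit false
set_option linter.unusedSectionVars false

open Finset MeasureTheory Filter Topology ProbabilityTheory

namespace Pool.Agent.U585.QC

/-- the sum over the levels -/
lemma level_sum (K : ℝ) (hK : 0 ≤ K) (Q : ℝ) (hQ : 0 ≤ Q) (n₁ n₂ A : ℕ) (h1 : 2 ≤ n₁) (h2 : 1 ≤ n₂) :
    ∑ n ∈ Icc n₁ n₂, K * (Q / (n : ℝ) ^ 2 + (n : ℝ) ^ A) ≤ K * (2 * Q / n₁ + (n₂ : ℝ) ^ (A + 1)) := by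
  have hn1 : (2 : ℝ) ≤ n₁ := by exact_mod_cast h1
  have hn2 : (1 : ℝ) ≤ n₂ := by exact_mod_cast h2
  rw [← mul_sum]
  refine mul_le_mul_of_nonneg_left ?_ hK
  rw [sum_add_distrib]
  refine add_le_add ?_ ?_
  · rcases Nat.lt_or_ge n₂ n₁ with h | h
    · rw [Icc_eq_empty (by omega), sum_empty]
      positivity
    · have h3 : Icc n₁ n₂ = Ioc (n₁ - 1) n₂ := by
        ext n; rw [mem_Icc, mem_Ioc]; omega
      have h4 := sum_Ioc_inv_sq_le_sub (α := ℝ) (k := n₁ - 1) (n := n₂) (by omega) (by omega)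
      have h5 : ∑ n ∈ Icc n₁ n₂, Q / (n : ℝ) ^ 2 = Q * ∑ n ∈ Ioc (n₁ - 1) n₂, ((n : ℝ) ^ 2)⁻¹ := by
        rw [h3, mul_sum]; rfl
      rw [h5, mul_comm 2 Q, mul_div_assoc]
      refine mul_le_mul_of_nonneg_left ?_ hQ
      have h6 : (((n₁ - 1 : ℕ) : ℝ))⁻¹ ≤ 2 / n₁ := by
        rw [Nat.cast_sub (by omega)]
        push_cast
        rw [inv_eq_one_div, div_le_div_iff₀ (by linarith) (by linarith)]
        linarith
      have h7 : (0 : ℝ) ≤ (n₂ : ℝ)⁻¹ := by positivity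
      linarith
  · calc ∑ n ∈ Icc n₁ n₂, (n : ℝ) ^ A ≤ ∑ _n ∈ Icc n₁ n₂, (n₂ : ℝ) ^ A := by
          refine sum_le_sum fun n hn => ?_
          exact pow_le_pow_left₀ (Nat.cast_nonneg _) (by exact_mod_cast (mem_Icc.1 hn).2) _
      _ = ((n₂ + 1 - n₁ : ℕ) : ℝ) * (n₂ : ℝ) ^ A := by rw [sum_const, Nat.card_Icc, nsmul_eq_mul]
      _ ≤ (n₂ : ℝ) * (n₂ : ℝ) ^ A := by
          refine mul_le_mul_of_nonneg_right ?_ (by positivity)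
          exact_mod_cast (by omega : n₂ + 1 - n₁ ≤ n₂)
      _ = _ := by ring

/-- the sizes -/
lemma sizes (B : ℕ) (K L : ℝ) : ∃ Q₀ : ℕ, ∀ Q : ℕ, Q₀ ≤ Q → 1 ≤ Real.log Q ∧ K ≤ Real.log Q ∧
    L * Real.log Q ^ B ≤ (Q : ℝ) ^ (1 / 2 : ℝ) := by
  have h1 : Tendsto (fun Q : ℕ => Real.log Q) atTop atTop :=
    Real.tendsto_log_atTop.comp tendsto_natCast_atTop_atTop
  have h2 := (isLittleO_log_rpow_rpow_atTop (B : ℝ) (by norm_num : (0 : ℝ) < 1 / 2)).bound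
    (show 0 < 1 / (|L| + 1) by positivity)
  have h3 := tendsto_natCast_atTop_atTop.eventually h2
  obtain ⟨Q₀, hQ₀⟩ := eventually_atTop.1 (((h1.eventually_ge_atTop 1).and (h1.eventually_ge_atTop K)).and h3)
  refine ⟨Q₀, fun Q hQ => ?_⟩
  obtain ⟨⟨a, b⟩, d⟩ := hQ₀ Q hQ
  refine ⟨a, b, ?_⟩
  rw [Real.rpow_natCast, Real.norm_of_nonneg (by positivity), Real.norm_of_nonneg (by positivity)] at d
  have h4 : (|L| + 1) * Real.log Q ^ B ≤ (Q : ℝ) ^ (1 / 2 : ℝ) := by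
    calc (|L| + 1) * Real.log Q ^ B ≤ (|L| + 1) * (1 / (|L| + 1) * (Q : ℝ) ^ (1 / 2 : ℝ)) :=
          mul_le_mul_of_nonneg_left d (by positivity)
      _ = _ := by field_simp
  have h5 : L * Real.log Q ^ B ≤ (|L| + 1) * Real.log Q ^ B :=
    mul_le_mul_of_nonneg_right (by linarith [le_abs_self L]) (by positivity)
  linarith

open Classical in
/-- all levels -/
theorem union_bound {c : ℕ → ℝ} (hc : ∀ p, c p = 1 ∨ c p = -1) {ε : ℝ} (hε : 0 < ε) (hε2 : ε ≤ 1 / 2)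
    (B R : ℕ) : ∃ A : ℕ, 1 ≤ A ∧ ∃ Q₀ : ℕ, ∀ Q : ℕ, Q₀ ≤ Q →
      (((range (Q + 1)).filter (fun q => q.Prime ∧ ¬ ∀ n : ℕ, Real.log Q ^ A ≤ n →
        (n : ℝ) ≤ (Q : ℝ) ^ (1 / (A : ℝ)) + 1 → 3 * n < q ∧ q ≠ 2 ∧
          ∀ r : ℕ, 1 ≤ r → r ≤ R → ¬ badq c r ε n q)).card : ℝ) ≤ Q / Real.log Q ^ B := by
  have hb : ∀ r : ℕ, ∃ (K : ℝ) (n₀ A : ℕ), 0 < K ∧ (1 ≤ r → ∀ n : ℕ, n₀ ≤ n → ∀ Q : ℕ,
      (((range Q).filter (fun q => (q.Prime ∧ q ≠ 2 ∧ 3 * n < q) ∧ badq c r ε n q)).card : ℝ) ≤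
        K * (Q / (n : ℝ) ^ 2 + (n : ℝ) ^ A)) := by
    intro r
    by_cases hr : 1 ≤ r
    · obtain ⟨K, n₀, A, h1, h2⟩ := bad_count coin_signs hc r hr ε hε hε2 2
      exact ⟨K, n₀, A, h1, fun _ => h2⟩
    · exact ⟨1, 0, 0, one_pos, fun h => absurd h hr⟩
  choose K n₀ A hK hcount using hb
  set Kt := ∑ r ∈ Icc 1 R, K r with hKt
  set At := ∑ r ∈ Icc 1 R, A r with hAt
  set nt := ∑ r ∈ Icc 1 R, n₀ r with hnt
  have hKt0 : 0 ≤ Kt := sum_nonneg fun r _ => (hK r).le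
  set D := (B + 1) + 2 * (At + 1) with hD
  have hD1 : 1 ≤ D := by omega
  obtain ⟨Q₁, hQ₁⟩ := sizes B (max (nt + 2) (8 * Kt)) (2 * (12 + Kt * 2 ^ (At + 1)))
  refine ⟨D, hD1, Q₁ + 3, fun Q hQ => ?_⟩
  obtain ⟨s1, s2, s3⟩ := hQ₁ Q (by omega)
  have s4 : (nt : ℝ) + 2 ≤ Real.log Q := (le_max_left _ _).trans s2
  have s5 : 8 * Kt ≤ Real.log Q := (le_max_right _ _).trans s2
  have hQ3 : (3 : ℝ) ≤ Q := by exact_mod_cast (by omega : 3 ≤ Q)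
  have hQ0 : (0 : ℝ) < Q := by linarith
  have hQ1 : (1 : ℝ) ≤ Q := by linarith
  set L := Real.log Q with hL
  have hL0 : 0 < L := by linarith
  set n₁ := ⌈L ^ D⌉₊ with hn₁
  set n₂ := ⌊(Q : ℝ) ^ (1 / (D : ℝ)) + 1⌋₊ with hn₂
  have hLD : L ≤ L ^ D := le_self_pow₀ s1 (by omega)
  have hn1a : L ^ D ≤ n₁ := Nat.le_ceil _
  have hn1b : nt + 2 ≤ n₁ := by
    have : (nt : ℝ) + 2 ≤ n₁ := by linarith
    exact_mod_cast this
  have hrt1 : 1 ≤ (Q : ℝ) ^ (1 / (D : ℝ)) := Real.one_le_rpow hQ1 (by positivity)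
  have hn2a : (n₂ : ℝ) ≤ (Q : ℝ) ^ (1 / (D : ℝ)) + 1 := Nat.floor_le (by positivity)
  have hn2b : 1 ≤ n₂ := Nat.le_floor (by push_cast; linarith)
  have hn2c : (n₂ : ℝ) ≤ 2 * (Q : ℝ) ^ (1 / (D : ℝ)) := by linarith
  -- the inclusion
  set E : ℕ → ℕ → Finset ℕ := fun r n =>
    (range (Q + 1)).filter (fun q => (q.Prime ∧ q ≠ 2 ∧ 3 * n < q) ∧ badq c r ε n q) with hE
  have hincl : (range (Q + 1)).filter (fun q => q.Prime ∧ ¬ ∀ n : ℕ, L ^ D ≤ n →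
        (n : ℝ) ≤ (Q : ℝ) ^ (1 / (D : ℝ)) + 1 → 3 * n < q ∧ q ≠ 2 ∧
          ∀ r : ℕ, 1 ≤ r → r ≤ R → ¬ badq c r ε n q) ⊆
      range (3 * n₂ + 3) ∪ (Icc 1 R).biUnion (fun r => (Icc n₁ n₂).biUnion (fun n => E r n)) := by
    intro q hq
    obtain ⟨hq1, hq2, hq3⟩ := mem_filter.1 hq
    push Not at hq3
    obtain ⟨n, a1, a2, a3⟩ := hq3
    have hnn2 : n ≤ n₂ := Nat.le_floor a2
    have hnn1 : n₁ ≤ n := Nat.ceil_le.2 a1
    by_cases hbig : q < 3 * n₂ + 3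
    · exact mem_union_left _ (mem_range.2 hbig)
    · refine mem_union_right _ ?_
      have h3 : 3 * n < q := by omega
      have h2 : q ≠ 2 := by omega
      obtain ⟨r, r1, r2, r3⟩ := a3 h3 h2
      exact mem_biUnion.2 ⟨r, mem_Icc.2 ⟨r1, r2⟩, mem_biUnion.2 ⟨n, mem_Icc.2 ⟨hnn1, hnn2⟩,
        mem_filter.2 ⟨hq1, ⟨hq2, h2, h3⟩, r3⟩⟩⟩
  have hcard : (((range (Q + 1)).filter (fun q => q.Prime ∧ ¬ ∀ n : ℕ, L ^ D ≤ n →
        (n : ℝ) ≤ (Q : ℝ) ^ (1 / (D : ℝ)) + 1 → 3 * n < q ∧ q ≠ 2 ∧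
          ∀ r : ℕ, 1 ≤ r → r ≤ R → ¬ badq c r ε n q)).card : ℝ) ≤
      (3 * n₂ + 3) + ∑ r ∈ Icc 1 R, ∑ n ∈ Icc n₁ n₂, ((E r n).card : ℝ) := by
    have h1 := (card_le_card hincl).trans (card_union_le _ _)
    rw [card_range] at h1
    have h2 : ((Icc 1 R).biUnion (fun r => (Icc n₁ n₂).biUnion (fun n => E r n))).card ≤
        ∑ r ∈ Icc 1 R, ∑ n ∈ Icc n₁ n₂, (E r n).card :=
      card_biUnion_le.trans (sum_le_sum fun r _ => card_biUnion_le)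
    exact_mod_cast h1.trans (Nat.add_le_add_left h2 _)
  have hlev : ∀ r ∈ Icc 1 R, ∑ n ∈ Icc n₁ n₂, ((E r n).card : ℝ) ≤
      K r * (2 * (Q + 1 : ℝ) / n₁ + (n₂ : ℝ) ^ (At + 1)) := by
    intro r hr
    have hr1 := (mem_Icc.1 hr).1
    have hn0 : n₀ r ≤ nt := single_le_sum (f := n₀) (fun _ _ => Nat.zero_le _) hr
    have hA0 : A r ≤ At := single_le_sum (f := A) (fun _ _ => Nat.zero_le _) hr
    have h1 : ∑ n ∈ Icc n₁ n₂, ((E r n).card : ℝ) ≤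
        ∑ n ∈ Icc n₁ n₂, K r * ((Q + 1 : ℝ) / (n : ℝ) ^ 2 + (n : ℝ) ^ A r) := by
      refine sum_le_sum fun n hn => ?_
      have h2 := hcount r hr1 n (by have := (mem_Icc.1 hn).1; omega) (Q + 1)
      push_cast at h2
      exact h2
    refine h1.trans ((level_sum (K r) (hK r).le (Q + 1) (by positivity) n₁ n₂ (A r) (by omega) hn2b).trans ?_)
    refine mul_le_mul_of_nonneg_left ?_ (hK r).le
    refine add_le_add le_rfl ?_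
    exact pow_le_pow_right₀ (by exact_mod_cast hn2b) (by omega)
  have hsum : ∑ r ∈ Icc 1 R, ∑ n ∈ Icc n₁ n₂, ((E r n).card : ℝ) ≤
      Kt * (2 * (Q + 1 : ℝ) / n₁ + (n₂ : ℝ) ^ (At + 1)) := by
    refine (sum_le_sum hlev).trans ?_
    rw [hKt, sum_mul]
  refine hcard.trans ?_
  -- the sizes
  have hn1pos : (0 : ℝ) < n₁ := by exact_mod_cast (by omega : 0 < n₁)
  have t1 : 2 * (Q + 1 : ℝ) / n₁ ≤ 4 * Q / L ^ (B + 1) := by
    have h1 : L ^ (B + 1) ≤ n₁ := (pow_le_pow_right₀ s1 (by omega)).trans hn1a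
    have h2 : 2 * (Q + 1 : ℝ) ≤ 4 * Q := by linarith
    exact div_le_div₀ (by positivity) h2 (by positivity) h1
  have hhalf : ((Q : ℝ) ^ (1 / (D : ℝ))) ^ (At + 1) ≤ (Q : ℝ) ^ (1 / 2 : ℝ) := by
    rw [← Real.rpow_natCast, ← Real.rpow_mul hQ0.le]
    refine Real.rpow_le_rpow_of_exponent_le hQ1 ?_
    rw [one_div_mul_eq_div, div_le_div_iff₀ (by positivity) (by norm_num)]
    have : ((At + 1 : ℕ) : ℝ) * 2 ≤ D := by exact_mod_cast (by omega : (At + 1) * 2 ≤ D)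
    linarith
  have hone : (Q : ℝ) ^ (1 / (D : ℝ)) ≤ (Q : ℝ) ^ (1 / 2 : ℝ) := by
    refine le_trans ?_ hhalf
    exact le_self_pow₀ hrt1 (by omega)
  have t2 : (n₂ : ℝ) ^ (At + 1) ≤ 2 ^ (At + 1) * (Q : ℝ) ^ (1 / 2 : ℝ) := by
    calc (n₂ : ℝ) ^ (At + 1) ≤ (2 * (Q : ℝ) ^ (1 / (D : ℝ))) ^ (At + 1) :=
          pow_le_pow_left₀ (Nat.cast_nonneg _) hn2c _
      _ = 2 ^ (At + 1) * ((Q : ℝ) ^ (1 / (D : ℝ))) ^ (At + 1) := mul_pow _ _ _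
      _ ≤ _ := mul_le_mul_of_nonneg_left hhalf (by positivity)
  have t3 : (3 * (n₂ : ℝ) + 3) ≤ 12 * (Q : ℝ) ^ (1 / 2 : ℝ) := by linarith
  set S := (Q : ℝ) ^ (1 / 2 : ℝ) with hS
  have hSS : S * S = Q := by
    rw [hS, ← Real.rpow_add hQ0]; norm_num
  have hS0 : 0 < S := by positivity
  have hLB : 0 < L ^ B := by positivity
  have t4 : Kt * (4 * Q / L ^ (B + 1)) ≤ (Q / L ^ B) / 2 := by
    rw [pow_succ]
    have h1 : Kt * (4 * Q / (L ^ B * L)) = (Q / L ^ B) / 2 * (8 * Kt / L) := by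
      field_simp
      ring
    rw [h1]
    have h2 : 8 * Kt / L ≤ 1 := by rw [div_le_one hL0]; exact s5
    calc (Q / L ^ B) / 2 * (8 * Kt / L) ≤ (Q / L ^ B) / 2 * 1 := mul_le_mul_of_nonneg_left h2 (by positivity)
      _ = _ := mul_one _
  have t5 : (12 + Kt * 2 ^ (At + 1)) * S ≤ (Q / L ^ B) / 2 := by
    rw [div_div, le_div_iff₀ (by positivity)]
    calc (12 + Kt * 2 ^ (At + 1)) * S * (L ^ B * 2) = S * (2 * (12 + Kt * 2 ^ (At + 1)) * L ^ B) := by ring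
      _ ≤ S * S := mul_le_mul_of_nonneg_left s3 hS0.le
      _ = Q := hSS
  have t6 := mul_le_mul_of_nonneg_left (add_le_add t1 t2) hKt0
  have t7 : Kt * (4 * Q / L ^ (B + 1) + 2 ^ (At + 1) * S) = Kt * (4 * Q / L ^ (B + 1)) + Kt * 2 ^ (At + 1) * S := by
    ring
  have t8 : (12 + Kt * 2 ^ (At + 1)) * S = 12 * S + Kt * 2 ^ (At + 1) * S := by ring
  linarith

end Pool.Agent.U585.QC
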